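import Pool.Agent.helper52.BN.Ode

set_option autoImplicit false
open MeasureTheory Filter Topology Set Metric
open scoped ContDiff Gradient RealInnerProductSpace ENNReal

noncomputable section
namespace Pool.Agent.helper13.BN
variable {N : ℕ}

/-! ### O2: crossing in the thin limit -/

namespace Cross

lemma hasDerivAt_yf (ν lam t : ℝ) : HasDerivAt (yf ν lam) (deriv (yf ν lam) t) t :=
  ((yf_spec ν lam).2.2.1 t).hasDerivAt

lemma hasDerivAt_yf' (ν lam t : ℝ) :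
    HasDerivAt (deriv (yf ν lam)) (qf ν lam t * yf ν lam t) t := (yf_spec ν lam).2.2.2 t

lemma thinA (M : ℝ) : ∃ C : ℝ, 0 < C ∧ ∀ ν lam L w ρ : ℝ, 0 < L → L ≤ 1 → 0 < w →
    |L ^ 2 * lam| ≤ M → L ^ 2 * ν ^ 2 ≤ M → |L ^ 2 * lam - L ^ 2 * ν ^ 2 - w ^ 2| ≤ ρ →
    ∀ τ ∈ Icc (0 : ℝ) 1, |yf ν lam (L * τ) / L - Real.sin (w * τ) / w| ≤ C * (ρ + L) ∧
        |deriv (yf ν lam) (L * τ) - Real.cos (w * τ)| ≤ C * (ρ + L) := by
  obtain ⟨C0, hC0, hb⟩ := exists_ode_bound (2 * M) 1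
  refine ⟨C0 * (1 + 2 * |M|), by positivity, ?_⟩
  intro ν lam L w ρ hL hL1 hw h1 h2 h3 τ hτ
  have hρ : 0 ≤ ρ := le_trans (abs_nonneg _) h3
  have hM : 0 ≤ M := le_trans (abs_nonneg _) h1
  have hMa : |M| = M := abs_of_nonneg hM
  set q : ℝ → ℝ := fun τ => L ^ 2 * qf ν lam (L * τ) with hq
  set h : ℝ → ℝ := fun τ => (q τ + w ^ 2) * (Real.sin (w * τ) / w) with hh
  set Z : ℝ → ℝ := fun τ => yf ν lam (L * τ) / L - Real.sin (w * τ) / w with hZ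
  have hqc : Continuous q := by
    simp only [hq, qf]
    fun_prop
  have hhc : Continuous h := by
    simp only [hh]
    fun_prop
  have hZd : ∀ τ, HasDerivAt Z (deriv (yf ν lam) (L * τ) - Real.cos (w * τ)) τ := by
    intro τ
    have e1 : HasDerivAt (fun τ : ℝ => L * τ) L τ := by
      simpa using (hasDerivAt_id τ).const_mul L
    have e2 : HasDerivAt (fun τ : ℝ => w * τ) w τ := by
      simpa using (hasDerivAt_id τ).const_mul w
    have e3 := ((hasDerivAt_yf ν lam (L * τ)).comp τ e1).div_const L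
    have e4 := ((Real.hasDerivAt_sin (w * τ)).comp τ e2).div_const w
    have e5 := e3.sub e4
    refine e5.congr_deriv ?_
    field_simp
  have hZ' : deriv Z = fun τ => deriv (yf ν lam) (L * τ) - Real.cos (w * τ) := by
    funext τ
    exact (hZd τ).deriv
  have hZdd : ∀ τ, HasDerivAt (deriv Z) (q τ * Z τ + h τ) τ := by
    intro τ
    rw [hZ']
    have e1 : HasDerivAt (fun τ : ℝ => L * τ) L τ := by
      simpa using (hasDerivAt_id τ).const_mul L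
    have e2 : HasDerivAt (fun τ : ℝ => w * τ) w τ := by
      simpa using (hasDerivAt_id τ).const_mul w
    have e3 := (hasDerivAt_yf' ν lam (L * τ)).comp τ e1
    have e4 := (Real.hasDerivAt_cos (w * τ)).comp τ e2
    have e5 := e3.sub e4
    refine e5.congr_deriv ?_
    simp only [hh, hZ, hq]
    field_simp
    ring
  have hexp : ∀ τ ∈ Icc (0 : ℝ) 1, Real.exp (-2 * (L * τ)) ≤ 1 ∧ 1 - 2 * L ≤ Real.exp (-2 * (L * τ)) := by
    intro τ hτ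
    have hLτ : 0 ≤ L * τ := mul_nonneg hL.le hτ.1
    have hLτ' : L * τ ≤ L := by nlinarith [hτ.2]
    constructor
    · rw [Real.exp_le_one_iff]; linarith
    · have := Real.add_one_le_exp (-2 * (L * τ)); linarith
  have hqb : ∀ t ∈ Icc (0 : ℝ) 1, |q t| ≤ 2 * M := by
    intro t ht
    obtain ⟨a1, a2⟩ := hexp t ht
    have a3 : 0 < Real.exp (-2 * (L * t)) := Real.exp_pos _
    have : q t = L ^ 2 * ν ^ 2 - (L ^ 2 * lam) * Real.exp (-2 * (L * t)) := by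
      simp only [hq, qf]; ring
    rw [this]
    have b1 : |(L ^ 2 * lam) * Real.exp (-2 * (L * t))| ≤ M := by
      rw [abs_mul, abs_of_pos a3]
      calc |L ^ 2 * lam| * Real.exp (-2 * (L * t)) ≤ M * 1 := by gcongr
        _ = M := mul_one _
    have b2 : |L ^ 2 * ν ^ 2| ≤ M := by rw [abs_of_nonneg (by positivity)]; exact h2
    have := abs_sub (L ^ 2 * ν ^ 2) ((L ^ 2 * lam) * Real.exp (-2 * (L * t)))
    linarith
  have hhb : ∀ t ∈ Icc (0 : ℝ) 1, |h t| ≤ ρ + 2 * M * L := by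
    intro t ht
    obtain ⟨a1, a2⟩ := hexp t ht
    simp only [hh]
    rw [abs_mul]
    have b1 : |q t + w ^ 2| ≤ ρ + 2 * M * L := by
      have : q t + w ^ 2 = -(L ^ 2 * lam - L ^ 2 * ν ^ 2 - w ^ 2) +
          (L ^ 2 * lam) * (1 - Real.exp (-2 * (L * t))) := by
        simp only [hq, qf]; ring
      rw [this]
      refine le_trans (abs_add_le _ _) ?_
      rw [abs_neg, abs_mul]
      have b2 : |1 - Real.exp (-2 * (L * t))| ≤ 2 * L := by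
        rw [abs_of_nonneg (by linarith)]; linarith
      have b3 : |L ^ 2 * lam| * |1 - Real.exp (-2 * (L * t))| ≤ M * (2 * L) := by gcongr
      linarith
    have b2 : |Real.sin (w * t) / w| ≤ 1 := by
      rw [abs_div, abs_of_pos hw, div_le_one hw]
      refine le_trans Real.abs_sin_le_abs ?_ 
      rw [abs_mul, abs_of_pos hw, abs_of_nonneg ht.1]
      nlinarith [ht.2]
    calc |q t + w ^ 2| * |Real.sin (w * t) / w| ≤ (ρ + 2 * M * L) * 1 := by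
          gcongr
          all_goals positivity
      _ = _ := mul_one _
  have hZ0 : Z 0 = 0 := by simp [hZ, (yf_spec ν lam).1]
  have hZ0' : deriv Z 0 = 0 := by rw [hZ']; simp [(yf_spec ν lam).2.1]
  have hfin := hb q h Z 0 0 (ρ + 2 * M * L) hqc hhc hqb hhb hZ0 hZ0'
    (fun τ => (hZd τ).differentiableAt) hZdd τ hτ
  have hle : C0 * (|(0 : ℝ)| + |(0 : ℝ)| + (ρ + 2 * M * L)) ≤ C0 * (1 + 2 * |M|) * (ρ + L) := by
    rw [hMa, mul_assoc C0]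
    apply mul_le_mul_of_nonneg_left _ hC0.le
    rw [abs_zero]
    nlinarith [mul_nonneg hM hρ, mul_nonneg hM hL.le]
  refine ⟨le_trans hfin.1 hle, ?_⟩
  have := le_trans hfin.2 hle
  rwa [hZ'] at this

lemma thinB (B : ℝ) {ε : ℝ} (hε : 0 < ε) : ∃ δ : ℝ, 0 < δ ∧ ∀ ν lam t : ℝ, 0 < t → t < δ →
    ν ^ 2 < lam → t ^ 2 * lam ≤ B →
    |yf ν lam t - Real.sin (√(lam - ν ^ 2) * t) / √(lam - ν ^ 2)| ≤ ε * t ∧
      |deriv (yf ν lam) t - Real.cos (√(lam - ν ^ 2) * t)| ≤ ε := by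
  obtain ⟨C, hC, hA⟩ := thinA B
  refine ⟨min 1 (ε / C), by positivity, ?_⟩
  intro ν lam t ht htδ hν hB
  have hμ : 0 < √(lam - ν ^ 2) := Real.sqrt_pos.mpr (by linarith)
  have hlam : 0 < lam := lt_of_le_of_lt (sq_nonneg ν) hν
  have ht1 : t ≤ 1 := (lt_of_lt_of_le htδ (min_le_left _ _)).le
  have htC : C * (0 + t) ≤ ε := by
    have : t ≤ ε / C := (lt_of_lt_of_le htδ (min_le_right _ _)).le
    rw [le_div_iff₀ hC] at this
    linarith
  have h1 : |t ^ 2 * lam| ≤ B := by rw [abs_of_nonneg (by positivity)]; exact hB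
  have h2 : t ^ 2 * ν ^ 2 ≤ B := by
    refine le_trans ?_ hB
    gcongr
  have h3 : |t ^ 2 * lam - t ^ 2 * ν ^ 2 - (√(lam - ν ^ 2) * t) ^ 2| ≤ 0 := by
    rw [mul_pow, Real.sq_sqrt (by linarith)]
    have : t ^ 2 * lam - t ^ 2 * ν ^ 2 - (lam - ν ^ 2) * t ^ 2 = 0 := by ring
    rw [this, abs_zero]
  have h4 := hA ν lam t (√(lam - ν ^ 2) * t) 0 ht ht1 (by positivity) h1 h2 h3 1 (by simp)
  rw [mul_one, mul_one] at h4
  refine ⟨?_, le_trans h4.2 htC⟩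
  have h5 : yf ν lam t - Real.sin (√(lam - ν ^ 2) * t) / √(lam - ν ^ 2) =
      (yf ν lam t / t - Real.sin (√(lam - ν ^ 2) * t) / (√(lam - ν ^ 2) * t)) * t := by
    field_simp
  rw [h5, abs_mul, abs_of_pos ht]
  exact mul_le_mul_of_nonneg_right (le_trans h4.1 htC) ht.le

end Cross

/-- `y(ν,λ;·)` on `[0,L]` is close to `L sin(k π t/L)/(kπ)` (here `L² λ ≈ Λ`, `L ν ≈ κ`,
`Λ - κ² = (kπ)²`) -/
theorem thin_limit {k : ℕ} (hk : 1 ≤ k) {κ : ℝ} (hκ : 0 ≤ κ) {ε : ℝ} (hε : 0 < ε) :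
    ∃ δ : ℝ, 0 < δ ∧ ∀ ν lam L : ℝ, 0 < L → L < δ → 0 ≤ ν → |L * ν - κ| < δ →
      |L ^ 2 * lam - (κ ^ 2 + (k * Real.pi) ^ 2)| < δ →
      ∀ τ ∈ Icc (0 : ℝ) 1, |yf ν lam (L * τ) / L - Real.sin (k * Real.pi * τ) / (k * Real.pi)| ≤ ε ∧
        |deriv (yf ν lam) (L * τ) - Real.cos (k * Real.pi * τ)| ≤ ε := by
  have hk0 : (0 : ℝ) < k * Real.pi := mul_pos (by exact_mod_cast hk) Real.pi_pos
  obtain ⟨C, hC, hA⟩ := Cross.thinA ((κ + 1) ^ 2 + (k * Real.pi) ^ 2 + 1)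
  refine ⟨min 1 (ε / (C * (2 * κ + 3))), by positivity, ?_⟩
  intro ν lam L hL hLδ hν h1 h2 τ hτ
  set δ := min 1 (ε / (C * (2 * κ + 3))) with hδ
  have hδ1 : δ ≤ 1 := min_le_left _ _
  have hδ0 : 0 < δ := lt_trans hL hLδ
  have hδε : C * (2 * κ + 3) * δ ≤ ε := by
    have h3 : δ ≤ ε / (C * (2 * κ + 3)) := min_le_right _ _
    rw [le_div_iff₀ (by positivity)] at h3
    linarith
  have hLν : 0 ≤ L * ν := mul_nonneg hL.le hν
  rw [abs_lt] at h1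
  have h4 : |L ^ 2 * lam - L ^ 2 * ν ^ 2 - (k * Real.pi) ^ 2| ≤ (2 * κ + 2) * δ := by
    have h5 : L ^ 2 * lam - L ^ 2 * ν ^ 2 - (k * Real.pi) ^ 2 =
        (L ^ 2 * lam - (κ ^ 2 + (k * Real.pi) ^ 2)) - (L * ν - κ) * (L * ν + κ) := by ring
    rw [h5]
    refine le_trans (abs_sub _ _) ?_
    rw [abs_mul]
    have h6 : |L * ν - κ| ≤ δ := by rw [abs_le]; constructor <;> linarith
    have h7 : |L * ν + κ| ≤ 2 * κ + 1 := by rw [abs_of_nonneg (by linarith)]; linarith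
    have h8 : |L * ν - κ| * |L * ν + κ| ≤ δ * (2 * κ + 1) := by gcongr
    linarith
  have h5 : |L ^ 2 * lam| ≤ (κ + 1) ^ 2 + (k * Real.pi) ^ 2 + 1 := by
    rw [abs_lt] at h2
    rw [abs_le]
    constructor <;> nlinarith [sq_nonneg κ, sq_nonneg (k * Real.pi)]
  have h6 : L ^ 2 * ν ^ 2 ≤ (κ + 1) ^ 2 + (k * Real.pi) ^ 2 + 1 := by
    have : L ^ 2 * ν ^ 2 = (L * ν) ^ 2 := by ring
    rw [this]
    nlinarith [sq_nonneg (k * Real.pi)]
  have h7 := hA ν lam L (k * Real.pi) ((2 * κ + 2) * δ) hL (by linarith) hk0 h5 h6 h4 τ hτ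
  have h8 : C * ((2 * κ + 2) * δ + L) ≤ ε := by
    refine le_trans ?_ hδε
    rw [mul_assoc]
    apply mul_le_mul_of_nonneg_left _ hC.le
    nlinarith
  exact ⟨le_trans h7.1 h8, le_trans h7.2 h8⟩

namespace Cross

/-- the solution is close to a sine -/
structure SinLike (f : ℝ → ℝ) (μ ε T : ℝ) : Prop where
  μpos : 0 < μ
  d : Differentiable ℝ f
  f0 : ∀ t, 0 < t → t ≤ T → |f t - Real.sin (μ * t) / μ| ≤ ε * t
  f1 : ∀ t, 0 < t → t ≤ T → |deriv f t - Real.cos (μ * t)| ≤ ε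

variable {f : ℝ → ℝ} {μ ε T η : ℝ}

lemma SinLike.lower (h : SinLike f μ ε T) {t : ℝ} (ht : 0 < t) (htT : t ≤ T) :
    (Real.sin (μ * t) - ε * (μ * t)) / μ ≤ f t := by
  have h1 := (abs_le.mp (h.f0 t ht htT)).1
  have : (Real.sin (μ * t) - ε * (μ * t)) / μ = Real.sin (μ * t) / μ - ε * t := by
    have := h.μpos
    field_simp
  linarith

lemma SinLike.upper (h : SinLike f μ ε T) {t : ℝ} (ht : 0 < t) (htT : t ≤ T) :
    f t ≤ (Real.sin (μ * t) + ε * (μ * t)) / μ := by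
  have h1 := (abs_le.mp (h.f0 t ht htT)).2
  have : (Real.sin (μ * t) + ε * (μ * t)) / μ = Real.sin (μ * t) / μ + ε * t := by
    have := h.μpos
    field_simp
  linarith

lemma sin_eta_pos (hη : 0 < η) (hη1 : η ≤ 1 / 2) : 0 < Real.sin η :=
  Real.sin_pos_of_pos_of_lt_pi hη (by linarith [Real.pi_gt_three])

lemma sin_eta_le_one (η : ℝ) : Real.sin η ≤ 1 := Real.sin_le_one η

lemma cos_eta_ge (hη : 0 < η) (hη1 : η ≤ 1 / 2) : 1 / 2 ≤ Real.cos η := by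
  have := Real.one_sub_sq_div_two_le_cos (x := η)
  nlinarith

/-- `sin x ≥ sin η` for `η ≤ x ≤ π - η` -/
lemma sin_ge (hη : 0 < η) (hη1 : η ≤ 1 / 2) {x : ℝ} (h1 : η ≤ x) (h2 : x ≤ Real.pi - η) :
    Real.sin η ≤ Real.sin x := by
  have hpi := Real.pi_gt_three
  rcases le_total x (Real.pi / 2) with h | h
  · exact Real.sin_le_sin_of_le_of_le_pi_div_two (by linarith) h h1
  · rw [← Real.sin_pi_sub x]
    exact Real.sin_le_sin_of_le_of_le_pi_div_two (by linarith) (by linarith) (by linarith)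

lemma SinLike.P1 (h : SinLike f μ ε T) (hη : 0 < η) (hη1 : η ≤ 1 / 2) (hε : ε ≤ Real.sin η / 10)
    {t : ℝ} (ht : 0 < t) (htT : t ≤ T) (ht1 : μ * t ≤ Real.pi - η) : 0 < f t := by
  have hs := sin_eta_pos hη hη1
  have hμ := h.μpos
  refine lt_of_lt_of_le ?_ (h.lower ht htT)
  apply div_pos _ hμ
  set x := μ * t with hx
  have hx0 : 0 < x := mul_pos hμ ht
  have hpi := Real.pi_gt_three
  have hpi' := Real.pi_lt_d2
  rcases le_total x η with h1 | h1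
  · have h2 := Real.mul_le_sin hx0.le (by linarith : x ≤ Real.pi / 2)
    have h3 : 1 / 2 ≤ 2 / Real.pi := by
      rw [div_le_div_iff₀ (by norm_num) Real.pi_pos]; linarith
    have h4 : Real.sin η ≤ 1 := Real.sin_le_one η
    nlinarith
  · have h2 := sin_ge hη hη1 h1 ht1
    have h3 : ε * x ≤ Real.sin η / 10 * x := by gcongr
    nlinarith

lemma SinLike.P2 (h : SinLike f μ ε T) (hη : 0 < η) (hη1 : η ≤ 1 / 2) (hε : ε ≤ Real.sin η / 10)
    {t : ℝ} (ht : 0 < t) (htT : t ≤ T) (ht1 : Real.pi - η ≤ μ * t) (ht2 : μ * t ≤ Real.pi + η) :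
    deriv f t < 0 := by
  have hs1 := Real.sin_le_one η
  have h1 := (abs_le.mp (h.f1 t ht htT)).2
  have hpi := Real.pi_gt_three
  have h2 : Real.cos (μ * t) ≤ - (1 / 2) := by
    have h3 : Real.cos (μ * t) = - Real.cos (μ * t - Real.pi) := by
      rw [Real.cos_sub_pi]; ring
    rw [h3, ← Real.cos_abs (μ * t - Real.pi)]
    have h4 : |μ * t - Real.pi| ≤ η := by rw [abs_le]; constructor <;> linarith
    have h5 : Real.cos η ≤ Real.cos |μ * t - Real.pi| :=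
      Real.cos_le_cos_of_nonneg_of_le_pi (abs_nonneg _) (by linarith) h4
    have h6 := cos_eta_ge hη hη1
    linarith
  linarith

lemma SinLike.P3 (h : SinLike f μ ε T) (hη : 0 < η) (hη1 : η ≤ 1 / 2) (hε : ε ≤ Real.sin η / 10)
    {t : ℝ} (ht : 0 < t) (htT : t ≤ T) (ht1 : Real.pi + η ≤ μ * t) (ht2 : μ * t ≤ 2 * Real.pi - η) :
    f t < 0 := by
  have hs := sin_eta_pos hη hη1
  have hμ := h.μpos
  refine lt_of_le_of_lt (h.upper ht htT) ?_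
  apply div_neg_of_neg_of_pos _ hμ
  have h1 := sin_ge hη hη1 (x := μ * t - Real.pi) (by linarith) (by linarith)
  rw [Real.sin_sub_pi] at h1
  have hpi' := Real.pi_lt_d2
  have hx0 : 0 < μ * t := mul_pos hμ ht
  have h3 : ε * (μ * t) ≤ Real.sin η / 10 * (μ * t) := by gcongr
  nlinarith

lemma SinLike.P4 (h : SinLike f μ ε T) (hη : 0 < η) (hη1 : η ≤ 1 / 2) (hε : ε ≤ Real.sin η / 10)
    {t : ℝ} (ht : 0 < t) (htT : t ≤ T) (ht1 : 2 * Real.pi - η ≤ μ * t)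
    (ht2 : μ * t ≤ 2 * Real.pi + η) : 0 < deriv f t := by
  have hs1 := Real.sin_le_one η
  have h1 := (abs_le.mp (h.f1 t ht htT)).1
  have hpi := Real.pi_gt_three
  have h2 : 1 / 2 ≤ Real.cos (μ * t) := by
    have h3 : Real.cos (μ * t) = Real.cos (μ * t - 2 * Real.pi) := by
      rw [Real.cos_sub_two_pi]
    rw [h3, ← Real.cos_abs (μ * t - 2 * Real.pi)]
    have h4 : |μ * t - 2 * Real.pi| ≤ η := by rw [abs_le]; constructor <;> linarith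
    have h5 : Real.cos η ≤ Real.cos |μ * t - 2 * Real.pi| :=
      Real.cos_le_cos_of_nonneg_of_le_pi (abs_nonneg _) (by linarith) h4
    have h6 := cos_eta_ge hη hη1
    linarith
  linarith

lemma SinLike.P5 (h : SinLike f μ ε T) (hη : 0 < η) (hη1 : η ≤ 1 / 2) (hε : ε ≤ Real.sin η / 10)
    {t : ℝ} (ht : 0 < t) (htT : t ≤ T) (ht1 : 2 * Real.pi + η ≤ μ * t)
    (ht2 : μ * t ≤ 3 * Real.pi - η) : 0 < f t := by
  have hs := sin_eta_pos hη hη1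
  have hμ := h.μpos
  refine lt_of_lt_of_le ?_ (h.lower ht htT)
  apply div_pos _ hμ
  have h1 := sin_ge hη hη1 (x := μ * t - 2 * Real.pi) (by linarith) (by linarith)
  rw [Real.sin_sub_two_pi] at h1
  have hpi' := Real.pi_lt_d2
  have hx0 : 0 < μ * t := mul_pos hμ ht
  have h3 : ε * (μ * t) ≤ Real.sin η / 10 * (μ * t) := by gcongr
  nlinarith

lemma SinLike.first (h : SinLike f μ ε T) (hη : 0 < η) (hη1 : η ≤ 1 / 2)
    (hε : ε ≤ Real.sin η / 10) (hT : Real.pi + η ≤ μ * T) :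
    ∃ t, 0 < t ∧ t ≤ T ∧ Real.pi - η ≤ μ * t ∧ μ * t ≤ Real.pi + η ∧ f t = 0 := by
  have hμ := h.μpos
  have hpi := Real.pi_gt_three
  set a := (Real.pi - η) / μ with ha
  set b := (Real.pi + η) / μ with hb
  have ha0 : 0 < a := div_pos (by linarith) hμ
  have hb0 : 0 < b := div_pos (by linarith) hμ
  have hab : a ≤ b := by rw [ha, hb]; gcongr; linarith
  have hbT : b ≤ T := by rw [hb, div_le_iff₀ hμ]; linarith
  have hμa : μ * a = Real.pi - η := by rw [ha]; field_simp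
  have hμb : μ * b = Real.pi + η := by rw [hb]; field_simp
  have h1 := h.P1 hη hη1 hε ha0 (hab.trans hbT) hμa.le
  have h2 := h.P3 hη hη1 hε hb0 hbT hμb.ge (by linarith)
  obtain ⟨t, ht, ht0⟩ := intermediate_value_Icc' hab h.d.continuous.continuousOn
    (⟨h2.le, h1.le⟩ : (0 : ℝ) ∈ Icc (f b) (f a))
  refine ⟨t, lt_of_lt_of_le ha0 ht.1, ht.2.trans hbT, ?_, ?_, ht0⟩
  · rw [← hμa]; exact mul_le_mul_of_nonneg_left ht.1 hμ.le
  · rw [← hμb]; exact mul_le_mul_of_nonneg_left ht.2 hμ.le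

lemma SinLike.anti (h : SinLike f μ ε T) (hη : 0 < η) (hη1 : η ≤ 1 / 2)
    (hε : ε ≤ Real.sin η / 10) {s t : ℝ} (hs : 0 < s) (hst : s < t) (htT : t ≤ T)
    (h1 : Real.pi - η ≤ μ * s) (h2 : μ * t ≤ Real.pi + η) : f t < f s := by
  have hμ := h.μpos
  have := strictAntiOn_of_deriv_neg (convex_Icc s t) h.d.continuous.continuousOn (by
    intro x hx
    rw [interior_Icc] at hx
    refine h.P2 hη hη1 hε (hs.trans hx.1) (hx.2.le.trans htT) (h1.trans ?_) (le_trans ?_ h2)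
    · exact mul_le_mul_of_nonneg_left hx.1.le hμ.le
    · exact mul_le_mul_of_nonneg_left hx.2.le hμ.le)
  exact this (left_mem_Icc.mpr hst.le) (right_mem_Icc.mpr hst.le) hst

lemma SinLike.mono (h : SinLike f μ ε T) (hη : 0 < η) (hη1 : η ≤ 1 / 2)
    (hε : ε ≤ Real.sin η / 10) {s t : ℝ} (hs : 0 < s) (hst : s < t) (htT : t ≤ T)
    (h1 : 2 * Real.pi - η ≤ μ * s) (h2 : μ * t ≤ 2 * Real.pi + η) : f s < f t := by
  have hμ := h.μpos
  have := strictMonoOn_of_deriv_pos (convex_Icc s t) h.d.continuous.continuousOn (by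
    intro x hx
    rw [interior_Icc] at hx
    refine h.P4 hη hη1 hε (hs.trans hx.1) (hx.2.le.trans htT) (h1.trans ?_) (le_trans ?_ h2)
    · exact mul_le_mul_of_nonneg_left hx.1.le hμ.le
    · exact mul_le_mul_of_nonneg_left hx.2.le hμ.le)
  exact this (left_mem_Icc.mpr hst.le) (right_mem_Icc.mpr hst.le) hst

lemma SinLike.first_unique (h : SinLike f μ ε T) (hη : 0 < η) (hη1 : η ≤ 1 / 2)
    (hε : ε ≤ Real.sin η / 10) {s t : ℝ} (hs : 0 < s) (hsT : s ≤ T) (ht : 0 < t) (htT : t ≤ T)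
    (hs1 : Real.pi - η ≤ μ * s) (hs2 : μ * s ≤ Real.pi + η)
    (ht1 : Real.pi - η ≤ μ * t) (ht2 : μ * t ≤ Real.pi + η) (hs0 : f s = 0) (ht0 : f t = 0) :
    s = t := by
  rcases lt_trichotomy s t with h1 | h1 | h1
  · have := h.anti hη hη1 hε hs h1 htT hs1 ht2
    linarith
  · exact h1
  · have := h.anti hη hη1 hε ht h1 hsT ht1 hs2
    linarith

lemma SinLike.first_pos (h : SinLike f μ ε T) (hη : 0 < η) (hη1 : η ≤ 1 / 2)
    (hε : ε ≤ Real.sin η / 10) {t : ℝ} (htT : t ≤ T)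
    (ht2 : μ * t ≤ Real.pi + η) (ht0 : f t = 0) {s : ℝ} (hs : 0 < s) (hst : s < t) : 0 < f s := by
  rcases le_total (μ * s) (Real.pi - η) with h1 | h1
  · exact h.P1 hη hη1 hε hs (hst.le.trans htT) h1
  · have := h.anti hη hη1 hε hs hst htT h1 ht2
    linarith

lemma SinLike.second (h : SinLike f μ ε T) (hη : 0 < η) (hη1 : η ≤ 1 / 2)
    (hε : ε ≤ Real.sin η / 10) {L : ℝ} (hL : 0 < L) (hLT : L ≤ T) (h5 : 5 ≤ μ * L)
    (h8 : μ * L ≤ 8) (hL0 : f L = 0) : 2 * Real.pi - η ≤ μ * L ∧ μ * L ≤ 2 * Real.pi + η ∧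
      ∃ z ∈ Ioo 0 L, ∀ t ∈ Ioo 0 L, f t = 0 ↔ t = z := by
  have hμ := h.μpos
  have hpi := Real.pi_gt_three
  have hpi' := Real.pi_lt_d2
  have h1 : 2 * Real.pi - η ≤ μ * L := by
    by_contra hcon
    push Not at hcon
    have := h.P3 hη hη1 hε hL hLT (by linarith) hcon.le
    linarith
  have h2 : μ * L ≤ 2 * Real.pi + η := by
    by_contra hcon
    push Not at hcon
    have := h.P5 hη hη1 hε hL hLT hcon.le (by linarith)
    linarith
  refine ⟨h1, h2, ?_⟩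
  obtain ⟨z, hz0, hzT, hz1, hz2, hz⟩ := h.first hη hη1 hε (by
    refine le_trans ?_ (mul_le_mul_of_nonneg_left hLT hμ.le); linarith)
  have hzL : z < L := by
    by_contra hcon
    push Not at hcon
    have := mul_le_mul_of_nonneg_left hcon hμ.le
    linarith
  refine ⟨z, ⟨hz0, hzL⟩, fun t ht => ⟨fun ht0 => ?_, fun ht0 => by rw [ht0]; exact hz⟩⟩
  have htT : t ≤ T := ht.2.le.trans hLT
  rcases le_total (μ * t) (Real.pi - η) with k1 | k1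
  · have := h.P1 hη hη1 hε ht.1 htT k1
    linarith
  · rcases le_total (μ * t) (Real.pi + η) with k2 | k2
    · exact h.first_unique hη hη1 hε ht.1 htT hz0 hzT k1 k2 hz1 hz2 ht0 hz
    · rcases le_total (μ * t) (2 * Real.pi - η) with k3 | k3
      · have := h.P3 hη hη1 hε ht.1 htT k2 k3
        linarith
      · have := h.mono hη hη1 hε ht.1 ht.2 hLT k3 h2
        linarith

lemma continuousOn_zero {G : ℝ → ℝ → ℝ} {S : Set ℝ} {a b : ℝ} {x : ℝ → ℝ}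
    (hG : ContinuousOn (fun p : ℝ × ℝ => G p.1 p.2) (S ×ˢ Icc a b))
    (hx : ∀ s ∈ S, x s ∈ Icc a b) (hx0 : ∀ s ∈ S, G s (x s) = 0)
    (hu : ∀ s ∈ S, ∀ t ∈ Icc a b, G s t = 0 → t = x s) : ContinuousOn x S := by
  intro s hs
  apply tendsto_of_subseq_tendsto
  intro ns hns
  have hmem : ∀ᶠ n in atTop, ns n ∈ S := hns.eventually self_mem_nhdsWithin
  obtain ⟨t, ht, φ, hφ, hlim⟩ := isCompact_Icc.tendsto_subseq' (x := fun n => x (ns n))
    (hmem.mono fun n hn => hx _ hn).frequently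
  refine ⟨φ, ?_⟩
  have hts : t = x s := by
    apply hu s hs t ht
    have h1 : Tendsto (fun n => (ns (φ n), x (ns (φ n)))) atTop (𝓝[S ×ˢ Icc a b] (s, t)) := by
      rw [tendsto_nhdsWithin_iff]
      constructor
      · exact Tendsto.prodMk_nhds ((tendsto_nhds_of_tendsto_nhdsWithin hns).comp hφ.tendsto_atTop)
          hlim
      · filter_upwards [hφ.tendsto_atTop.eventually hmem] with n hn
        exact ⟨hn, hx _ hn⟩
    have h2 := (hG (s, t) ⟨hs, ht⟩).tendsto.comp h1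
    have h3 : Tendsto (fun _ : ℕ => (0 : ℝ)) atTop (𝓝 (G s t)) := by
      refine h2.congr' ?_
      filter_upwards [hφ.tendsto_atTop.eventually hmem] with n hn
      exact hx0 _ hn
    exact tendsto_nhds_unique h3 tendsto_const_nhds
  rw [← hts]
  exact hlim

lemma step0 {δ : ℝ} (hδ : 0 < δ) : ∃ η : ℝ, 0 < η ∧ η ≤ 1 / 10 ∧ ∀ x θ : ℝ, |x - Real.pi| ≤ η →
    |θ - 4 / 3| ≤ η → |x / √(θ - 1) - √3 * Real.pi| < δ ∧
      |x ^ 2 * θ / (θ - 1) - 4 * Real.pi ^ 2| < δ := by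
  have hs3 : √(4 / 3 - 1 : ℝ) = 1 / √3 := by
    rw [show (4 / 3 - 1 : ℝ) = 1 / 3 by norm_num, Real.sqrt_div (by norm_num), Real.sqrt_one]
  have h3 : (0 : ℝ) < √3 := Real.sqrt_pos.mpr (by norm_num)
  have c1 : ContinuousAt (fun p : ℝ × ℝ => p.1 / √(p.2 - 1)) (Real.pi, 4 / 3) := by
    apply ContinuousAt.div continuousAt_fst
    · exact (Real.continuous_sqrt.continuousAt).comp (by fun_prop)
    · show √(4 / 3 - 1 : ℝ) ≠ 0
      rw [hs3]; positivity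
  have c2 : ContinuousAt (fun p : ℝ × ℝ => p.1 ^ 2 * p.2 / (p.2 - 1)) (Real.pi, 4 / 3) := by
    apply ContinuousAt.div (by fun_prop) (by fun_prop)
    norm_num
  have v1 : (Real.pi : ℝ) / √(4 / 3 - 1) = √3 * Real.pi := by
    rw [hs3]; field_simp
  have v2 : Real.pi ^ 2 * (4 / 3) / (4 / 3 - 1) = 4 * Real.pi ^ 2 := by ring
  have e1 := (Metric.continuousAt_iff.mp c1) δ hδ
  have e2 := (Metric.continuousAt_iff.mp c2) δ hδ
  obtain ⟨r1, hr1, h1⟩ := e1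
  obtain ⟨r2, hr2, h2⟩ := e2
  refine ⟨min (1 / 10) (min (r1 / 2) (r2 / 2)), by positivity, min_le_left _ _, ?_⟩
  intro x θ hx hθ
  have hx1 : |x - Real.pi| ≤ r1 / 2 := hx.trans ((min_le_right _ _).trans (min_le_left _ _))
  have hx2 : |x - Real.pi| ≤ r2 / 2 := hx.trans ((min_le_right _ _).trans (min_le_right _ _))
  have hθ1 : |θ - 4 / 3| ≤ r1 / 2 := hθ.trans ((min_le_right _ _).trans (min_le_left _ _))
  have hθ2 : |θ - 4 / 3| ≤ r2 / 2 := hθ.trans ((min_le_right _ _).trans (min_le_right _ _))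
  constructor
  · have h3 := @h1 (x, θ) (by
      rw [Prod.dist_eq, Real.dist_eq, Real.dist_eq]
      exact max_lt (by linarith) (by linarith))
    rw [Real.dist_eq] at h3
    simp only at h3
    rwa [v1] at h3
  · have h3 := @h2 (x, θ) (by
      rw [Prod.dist_eq, Real.dist_eq, Real.dist_eq]
      exact max_lt (by linarith) (by linarith))
    rw [Real.dist_eq] at h3
    simp only at h3
    rwa [v2] at h3

lemma step1 {θ : ℝ} (hθ : 1 < θ) (σ : ℝ) (hσ : 0 < σ * Real.sin (Real.pi * √(θ / (θ - 1)))) :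
    ∃ η m : ℝ, 0 < η ∧ 0 < m ∧ ∀ x s : ℝ, |x - Real.pi| ≤ η → |s| ≤ η →
      m ≤ σ * Real.sin (x * √((θ - s) / (θ - 1))) := by
  have c1 : ContinuousAt (fun p : ℝ × ℝ => σ * Real.sin (p.1 * √((θ - p.2) / (θ - 1))))
      (Real.pi, 0) := by fun_prop
  obtain ⟨r, hr, h1⟩ := (Metric.continuousAt_iff.mp c1)
    (σ * Real.sin (Real.pi * √(θ / (θ - 1))) / 2) (by positivity)
  refine ⟨r / 2, σ * Real.sin (Real.pi * √(θ / (θ - 1))) / 2, by positivity, by positivity, ?_⟩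
  intro x s hx hs
  have h3 := @h1 (x, s) (by
      rw [Prod.dist_eq, Real.dist_eq, Real.dist_eq, sub_zero]
      exact max_lt (by linarith) (by linarith))
  rw [Real.dist_eq] at h3
  simp only [sub_zero] at h3
  have := (abs_lt.mp h3).1
  linarith

lemma sin_minus {η : ℝ} (hη : 0 < η) (hη1 : η ≤ 1 / 10) :
    0 < 1 * Real.sin (Real.pi * √((4 / 3 - η) / (4 / 3 - η - 1))) := by
  have hd : 0 < 4 / 3 - η - 1 := by linarith
  set r := √((4 / 3 - η) / (4 / 3 - η - 1)) with hr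
  have hr2 : 2 < r := by
    rw [hr, Real.lt_sqrt (by norm_num), lt_div_iff₀ hd]
    linarith
  have hr3 : r < 3 := by
    rw [hr, Real.sqrt_lt' (by norm_num), div_lt_iff₀ hd]
    linarith
  rw [one_mul, ← Real.sin_sub_two_pi]
  have hpi := Real.pi_pos
  apply Real.sin_pos_of_pos_of_lt_pi
  · nlinarith
  · nlinarith

lemma sin_plus {η : ℝ} (hη : 0 < η) (hη1 : η ≤ 1 / 10) :
    0 < -1 * Real.sin (Real.pi * √((4 / 3 + η) / (4 / 3 + η - 1))) := by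
  have hd : 0 < 4 / 3 + η - 1 := by linarith
  set r := √((4 / 3 + η) / (4 / 3 + η - 1)) with hr
  have hr2 : 1 < r := by
    rw [hr, Real.lt_sqrt (by norm_num), lt_div_iff₀ hd]
    linarith
  have hr3 : r < 2 := by
    rw [hr, Real.sqrt_lt' (by norm_num), div_lt_iff₀ hd]
    linarith
  have hpi := Real.pi_pos
  have h1 : -1 * Real.sin (Real.pi * r) = Real.sin (Real.pi * r - Real.pi) := by
    rw [Real.sin_sub_pi]; ring
  rw [h1]
  apply Real.sin_pos_of_pos_of_lt_pi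
  · nlinarith
  · nlinarith

lemma wr {c lam L : ℝ} (hL : 0 < L) (h0 : yf c lam L = 0) (hd : 0 < deriv (yf c lam) L)
    (hne : ∃ t ∈ Ioo 0 L, yf c lam t ≠ 0) {e : ℝ} (he : 0 < e) :
    ∃ lam', lam - e < lam' ∧ lam' < lam ∧ yf c lam' L < 0 := by
  set I : ℝ → ℝ := fun l' => ∫ t in (0 : ℝ)..L, Real.exp (-2 * t) * (yf c lam t * yf c l' t) with hI
  have hyc := (yf_continuous c).1
  have hy1 : Continuous (yf c lam) := (yf_spec c lam).2.2.1.continuous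
  have hIc : Continuous I := by
    apply intervalIntegral.continuous_parametric_intervalIntegral_of_continuous'
    simp only [Function.uncurry_def]
    have h1 : Continuous (fun p : ℝ × ℝ => yf c lam p.2) := hy1.comp continuous_snd
    have h2 : Continuous (fun p : ℝ × ℝ => yf c p.1 p.2) := hyc
    fun_prop
  have hI0 : 0 < I lam := by
    obtain ⟨t, ht, ht0⟩ := hne
    apply intervalIntegral.integral_pos hL
    · have : Continuous fun t => Real.exp (-2 * t) * (yf c lam t * yf c lam t) := by fun_prop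
      exact this.continuousOn
    · intro x _
      exact mul_nonneg (Real.exp_pos _).le (mul_self_nonneg _)
    · exact ⟨t, ⟨ht.1.le, ht.2.le⟩, mul_pos (Real.exp_pos _) (mul_self_pos.mpr ht0)⟩
  obtain ⟨r, hr, hr'⟩ := Metric.eventually_nhds_iff.mp
    (hIc.continuousAt.eventually (lt_mem_nhds hI0))
  refine ⟨lam - min e r / 2, ?_, ?_, ?_⟩
  · have := min_le_left e r
    linarith
  · have : 0 < min e r := lt_min he hr
    linarith
  · have hm : 0 < min e r := lt_min he hr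
    have hm2 : min e r ≤ r := min_le_right _ _
    set l' := lam - min e r / 2 with hl'
    have h1 := hr' (y := l') (by
      rw [Real.dist_eq, hl', abs_lt]
      constructor <;> linarith)
    have h2 := yf_wronskian c lam l' L
    rw [h0, zero_mul, sub_zero] at h2
    have h3 : deriv (yf c lam) L * yf c l' L < 0 := by
      rw [h2]
      have : 0 < ∫ t in (0 : ℝ)..L, Real.exp (-2 * t) * (yf c lam t * yf c l' t) := h1
      apply mul_neg_of_neg_of_pos _ this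
      rw [hl']; linarith
    by_contra hcon
    push Not at hcon
    have := mul_nonneg hd.le hcon
    linarith

/-- the data for a fixed large `l` -/
structure Core (ν c η0 η ε T : ℝ) : Prop where
  hν : 0 < ν
  hc : 0 ≤ c
  hη0 : 0 < η0
  hη0' : η0 ≤ 1 / 10
  hη : 0 < η
  hηη0 : η ≤ η0
  hε : ε ≤ Real.sin η / 10
  hs : c ^ 2 / ν ^ 2 ≤ 1 / 100
  hT : T = 7 / ν
  hSl : ∀ θ ∈ Icc (4 / 3 - η0) (4 / 3 + η0),
    SinLike (yf ν (θ * ν ^ 2)) (√(θ * ν ^ 2 - ν ^ 2)) ε T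
  hS0 : ∀ θ ∈ Icc (4 / 3 - η0) (4 / 3 + η0),
    SinLike (yf c (θ * ν ^ 2)) (√(θ * ν ^ 2 - c ^ 2)) ε T

variable {ν c η0 η ε T : ℝ}

lemma Core.θ1 (h : Core ν c η0 η ε T) {θ : ℝ} (hθ : θ ∈ Icc (4 / 3 - η0) (4 / 3 + η0)) :
    7 / 30 ≤ θ - 1 ∧ θ - 1 ≤ 13 / 30 := by
  have h1 := h.hη0'
  constructor
  · linarith [hθ.1]
  · linarith [hθ.2]

lemma Core.μl (h : Core ν c η0 η ε T) (θ : ℝ) : √(θ * ν ^ 2 - ν ^ 2) = ν * √(θ - 1) := by
  have : θ * ν ^ 2 - ν ^ 2 = ν ^ 2 * (θ - 1) := by ring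
  rw [this, Real.sqrt_mul (sq_nonneg ν), Real.sqrt_sq h.hν.le]

lemma Core.y_eq (h : Core ν c η0 η ε T) {θ : ℝ} (hθ : θ ∈ Icc (4 / 3 - η0) (4 / 3 + η0)) (x : ℝ) :
    √(θ * ν ^ 2 - c ^ 2) * (x / √(θ * ν ^ 2 - ν ^ 2)) = x * √((θ - c ^ 2 / ν ^ 2) / (θ - 1)) := by
  have hν := h.hν
  have h1 := h.θ1 hθ
  have h2 : θ * ν ^ 2 - c ^ 2 = ν ^ 2 * (θ - c ^ 2 / ν ^ 2) := by field_simp
  have h3 : 0 < √(θ - 1) := Real.sqrt_pos.mpr (by linarith)
  rw [h.μl, h2, Real.sqrt_mul (sq_nonneg ν), Real.sqrt_sq hν.le,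
    Real.sqrt_div (by have := h.hs; linarith)]
  field_simp

lemma Core.y_bound (h : Core ν c η0 η ε T) {θ : ℝ} (hθ : θ ∈ Icc (4 / 3 - η0) (4 / 3 + η0))
    {x : ℝ} (hx : x ∈ Icc (Real.pi - η) (Real.pi + η)) :
    5 ≤ x * √((θ - c ^ 2 / ν ^ 2) / (θ - 1)) ∧ x * √((θ - c ^ 2 / ν ^ 2) / (θ - 1)) ≤ 8 := by
  have hpi := Real.pi_gt_d2
  have hpi' := Real.pi_lt_d2
  have h1 := h.θ1 hθ
  have h2 := h.hs
  have h3 : 0 ≤ c ^ 2 / ν ^ 2 := by positivity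
  have h4 := h.hηη0
  have h5 := h.hη0'
  set r := √((θ - c ^ 2 / ν ^ 2) / (θ - 1)) with hr
  have hr1 : 18 / 10 ≤ r := by
    rw [hr]
    apply Real.le_sqrt_of_sq_le
    rw [le_div_iff₀ (by linarith)]
    linarith
  have hr2 : r ≤ 231 / 100 := by
    rw [hr]
    apply Real.sqrt_le_iff.mpr ⟨by norm_num, ?_⟩
    rw [div_le_iff₀ (by linarith)]
    linarith
  obtain ⟨hx1, hx2⟩ := hx
  constructor
  · nlinarith
  · nlinarith

lemma Core.T_pos (h : Core ν c η0 η ε T) : 0 < T := by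
  rw [h.hT]; exact div_pos (by norm_num) h.hν

lemma Core.piT (h : Core ν c η0 η ε T) {θ : ℝ} (hθ : θ ∈ Icc (4 / 3 - η0) (4 / 3 + η0)) :
    Real.pi + η ≤ √(θ * ν ^ 2 - ν ^ 2) * T := by
  have hpi' := Real.pi_lt_d2
  have h1 := h.θ1 hθ
  have h4 := h.hηη0
  have h5 := h.hη0'
  have hν := h.hν
  have h6 : 48 / 100 ≤ √(θ - 1) := by
    apply Real.le_sqrt_of_sq_le
    linarith
  have h7 : √(θ * ν ^ 2 - ν ^ 2) * T = 7 * √(θ - 1) := by
    rw [h.μl, h.hT]; field_simp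
  rw [h7]
  linarith

lemma Core.exists_x (h : Core ν c η0 η ε T) : ∃ x : ℝ → ℝ,
    ContinuousOn x (Icc (4 / 3 - η0) (4 / 3 + η0)) ∧
    ∀ θ ∈ Icc (4 / 3 - η0) (4 / 3 + η0), x θ ∈ Icc (Real.pi - η) (Real.pi + η) ∧
      yf ν (θ * ν ^ 2) (x θ / √(θ * ν ^ 2 - ν ^ 2)) = 0 ∧
      0 < x θ / √(θ * ν ^ 2 - ν ^ 2) ∧ x θ / √(θ * ν ^ 2 - ν ^ 2) ≤ T := by
  have hη1 : η ≤ 1 / 2 := by linarith [h.hηη0, h.hη0']
  have hpi := Real.pi_gt_three
  have hμ : ∀ θ ∈ Icc (4 / 3 - η0) (4 / 3 + η0), 0 < √(θ * ν ^ 2 - ν ^ 2) :=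
    fun θ hθ => (h.hSl θ hθ).μpos
  have hex : ∀ θ ∈ Icc (4 / 3 - η0) (4 / 3 + η0), ∃ x, x ∈ Icc (Real.pi - η) (Real.pi + η) ∧
      yf ν (θ * ν ^ 2) (x / √(θ * ν ^ 2 - ν ^ 2)) = 0 ∧
      0 < x / √(θ * ν ^ 2 - ν ^ 2) ∧ x / √(θ * ν ^ 2 - ν ^ 2) ≤ T := by
    intro θ hθ
    obtain ⟨t, ht0, htT, ht1, ht2, ht⟩ := (h.hSl θ hθ).first h.hη hη1 h.hε (h.piT hθ)
    have h1 := hμ θ hθ
    have h2 : √(θ * ν ^ 2 - ν ^ 2) * t / √(θ * ν ^ 2 - ν ^ 2) = t :=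
      mul_div_cancel_left₀ _ h1.ne'
    refine ⟨√(θ * ν ^ 2 - ν ^ 2) * t, ⟨ht1, ht2⟩, ?_, ?_, ?_⟩
    · rw [h2]; exact ht
    · rw [h2]; exact ht0
    · rw [h2]; exact htT
  choose! x hx using hex
  refine ⟨x, ?_, hx⟩
  apply continuousOn_zero (G := fun θ x => yf ν (θ * ν ^ 2) (x / √(θ * ν ^ 2 - ν ^ 2)))
    (a := Real.pi - η) (b := Real.pi + η)
  · have h1 : ContinuousOn (fun p : ℝ × ℝ => (p.1 * ν ^ 2, p.2 / √(p.1 * ν ^ 2 - ν ^ 2)))
        (Icc (4 / 3 - η0) (4 / 3 + η0) ×ˢ Icc (Real.pi - η) (Real.pi + η)) := by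
      apply ContinuousOn.prodMk (by fun_prop)
      apply ContinuousOn.div (by fun_prop)
      · have : Continuous fun p : ℝ × ℝ => √(p.1 * ν ^ 2 - ν ^ 2) := by fun_prop
        exact this.continuousOn
      · intro p hp
        exact (hμ p.1 hp.1).ne'
    exact (yf_continuous ν).1.comp_continuousOn h1
  · exact fun s hs => (hx s hs).1
  · exact fun s hs => (hx s hs).2.1
  · intro θ hθ x' hx' hx0
    have h1 := hμ θ hθ
    obtain ⟨k1, k2, k3, k4⟩ := hx θ hθ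
    have e1 : √(θ * ν ^ 2 - ν ^ 2) * (x' / √(θ * ν ^ 2 - ν ^ 2)) = x' := by
      rw [mul_div_assoc', mul_div_cancel_left₀ _ h1.ne']
    have e2 : √(θ * ν ^ 2 - ν ^ 2) * (x θ / √(θ * ν ^ 2 - ν ^ 2)) = x θ := by
      rw [mul_div_assoc', mul_div_cancel_left₀ _ h1.ne']
    have h2 : x' / √(θ * ν ^ 2 - ν ^ 2) = x θ / √(θ * ν ^ 2 - ν ^ 2) := by
      apply (h.hSl θ hθ).first_unique h.hη hη1 h.hε _ _ k3 k4 _ _ _ _ hx0 k2
      · exact div_pos (by linarith [hx'.1]) h1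
      · rw [div_le_iff₀ h1, mul_comm]
        exact hx'.2.trans (h.piT hθ)
      · rw [e1]; exact hx'.1
      · rw [e1]; exact hx'.2
      · rw [e2]; exact k1.1
      · rw [e2]; exact k1.2
    rw [← e1, h2, e2]

/-- the value of mode `0` at the zero of mode `l` -/
lemma Core.value_pos (h : Core ν c η0 η ε T) {m : ℝ} (hm : 0 < m) (hεm : ε ≤ m / 10) {θ x : ℝ}
    (hθ : θ ∈ Icc (4 / 3 - η0) (4 / 3 + η0)) (hx : x ∈ Icc (Real.pi - η) (Real.pi + η))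
    (ht0 : 0 < x / √(θ * ν ^ 2 - ν ^ 2)) (htT : x / √(θ * ν ^ 2 - ν ^ 2) ≤ T)
    (hsin : m ≤ 1 * Real.sin (x * √((θ - c ^ 2 / ν ^ 2) / (θ - 1)))) :
    0 < yf c (θ * ν ^ 2) (x / √(θ * ν ^ 2 - ν ^ 2)) := by
  have h1 := (h.hS0 θ hθ).lower ht0 htT
  refine lt_of_lt_of_le ?_ h1
  apply div_pos _ (h.hS0 θ hθ).μpos
  rw [h.y_eq hθ]
  have h2 := h.y_bound hθ hx
  rw [one_mul] at hsin
  have h3 : ε * (x * √((θ - c ^ 2 / ν ^ 2) / (θ - 1))) ≤
      m / 10 * (x * √((θ - c ^ 2 / ν ^ 2) / (θ - 1))) := by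
    apply mul_le_mul_of_nonneg_right hεm (by linarith)
  nlinarith

lemma Core.value_neg (h : Core ν c η0 η ε T) {m : ℝ} (hm : 0 < m) (hεm : ε ≤ m / 10) {θ x : ℝ}
    (hθ : θ ∈ Icc (4 / 3 - η0) (4 / 3 + η0)) (hx : x ∈ Icc (Real.pi - η) (Real.pi + η))
    (ht0 : 0 < x / √(θ * ν ^ 2 - ν ^ 2)) (htT : x / √(θ * ν ^ 2 - ν ^ 2) ≤ T)
    (hsin : m ≤ -1 * Real.sin (x * √((θ - c ^ 2 / ν ^ 2) / (θ - 1)))) :
    yf c (θ * ν ^ 2) (x / √(θ * ν ^ 2 - ν ^ 2)) < 0 := by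
  have h1 := (h.hS0 θ hθ).upper ht0 htT
  refine lt_of_le_of_lt h1 ?_
  apply div_neg_of_neg_of_pos _ (h.hS0 θ hθ).μpos
  rw [h.y_eq hθ]
  have h2 := h.y_bound hθ hx
  have h3 : ε * (x * √((θ - c ^ 2 / ν ^ 2) / (θ - 1))) ≤
      m / 10 * (x * √((θ - c ^ 2 / ν ^ 2) / (θ - 1))) := by
    apply mul_le_mul_of_nonneg_right hεm (by linarith)
  nlinarith

/-- the least zero of a function which is positive at the left end -/
lemma exists_least_zero {Φ : ℝ → ℝ} {a b : ℝ} (hab : a ≤ b) (hΦ : ContinuousOn Φ (Icc a b))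
    (ha : 0 < Φ a) (hb : Φ b < 0) : ∃ s ∈ Icc a b, a < s ∧ Φ s = 0 ∧ ∀ t ∈ Icc a b, t < s → 0 < Φ t := by
  have hcl : IsClosed (Icc a b ∩ Φ ⁻¹' {0}) := hΦ.preimage_isClosed_of_isClosed isClosed_Icc
    isClosed_singleton
  have hcomp : IsCompact (Icc a b ∩ Φ ⁻¹' {0}) := isCompact_Icc.of_isClosed_subset hcl
    inter_subset_left
  have hne : (Icc a b ∩ Φ ⁻¹' {0}).Nonempty := by
    obtain ⟨t, ht, ht0⟩ := intermediate_value_Icc' hab hΦ (⟨hb.le, ha.le⟩ : (0 : ℝ) ∈ Icc (Φ b) (Φ a))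
    exact ⟨t, ht, ht0⟩
  obtain ⟨s, hs, hsl⟩ := hcomp.exists_isLeast hne
  refine ⟨s, hs.1, ?_, hs.2, ?_⟩
  · rcases eq_or_lt_of_le hs.1.1 with h | h
    · exfalso
      have : Φ s = 0 := hs.2
      rw [← h] at this
      linarith
    · exact h
  · intro t ht hts
    by_contra hcon
    push Not at hcon
    obtain ⟨u, hu, hu0⟩ := intermediate_value_Icc' ht.1 (hΦ.mono (Icc_subset_Icc_right ht.2))
      (⟨hcon, ha.le⟩ : (0 : ℝ) ∈ Icc (Φ t) (Φ a))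
    have := hsl ⟨⟨hu.1, hu.2.trans ht.2⟩, hu0⟩
    linarith [hu.2]

theorem Core.main (h : Core ν c η0 η ε T) {m : ℝ} (hm : 0 < m) (hεm : ε ≤ m / 10)
    (hminus : ∀ x : ℝ, |x - Real.pi| ≤ η →
      m ≤ 1 * Real.sin (x * √(((4 / 3 - η0) - c ^ 2 / ν ^ 2) / ((4 / 3 - η0) - 1))))
    (hplus : ∀ x : ℝ, |x - Real.pi| ≤ η →
      m ≤ -1 * Real.sin (x * √(((4 / 3 + η0) - c ^ 2 / ν ^ 2) / ((4 / 3 + η0) - 1)))) :
    ∃ θ x L : ℝ, θ ∈ Icc (4 / 3 - η0) (4 / 3 + η0) ∧ x ∈ Icc (Real.pi - η) (Real.pi + η) ∧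
      L = x / √(θ * ν ^ 2 - ν ^ 2) ∧ 0 < L ∧ L ≤ T ∧
      yf c (θ * ν ^ 2) L = 0 ∧ yf ν (θ * ν ^ 2) L = 0 ∧
      (∃ z ∈ Ioo 0 L, ∀ t ∈ Ioo 0 L, yf c (θ * ν ^ 2) t = 0 ↔ t = z) ∧
      (∀ t ∈ Ioo 0 L, 0 < yf ν (θ * ν ^ 2) t) ∧
      ∀ e : ℝ, 0 < e → ∃ L' lam1 lam2 : ℝ, 0 < L' ∧ |L' - L| < e ∧ |lam1 - θ * ν ^ 2| < e ∧
        |lam2 - θ * ν ^ 2| < e ∧ lam1 < lam2 ∧ yf c lam1 L' = 0 ∧ yf ν lam2 L' = 0 := by
  have hη1 : η ≤ 1 / 2 := by linarith [h.hηη0, h.hη0']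
  have hν := h.hν
  have hη0 := h.hη0
  obtain ⟨x, hxc, hx⟩ := h.exists_x
  set S := Icc (4 / 3 - η0) (4 / 3 + η0) with hS
  have hμ : ∀ θ ∈ S, 0 < √(θ * ν ^ 2 - ν ^ 2) := fun θ hθ => (h.hSl θ hθ).μpos
  set tt : ℝ → ℝ := fun θ => x θ / √(θ * ν ^ 2 - ν ^ 2) with htt
  have httc : ContinuousOn tt S := by
    apply ContinuousOn.div hxc
    · have : Continuous fun θ : ℝ => √(θ * ν ^ 2 - ν ^ 2) := by fun_prop
      exact this.continuousOn
    · intro θ hθ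
      exact (hμ θ hθ).ne'
  set Φ : ℝ → ℝ := fun θ => yf c (θ * ν ^ 2) (tt θ) with hΦ
  have hΦc : ContinuousOn Φ S := by
    have h1 : ContinuousOn (fun θ : ℝ => (θ * ν ^ 2, tt θ)) S :=
      ContinuousOn.prodMk (by fun_prop) httc
    exact (yf_continuous c).1.comp_continuousOn h1
  have habs : ∀ {x : ℝ}, x ∈ Icc (Real.pi - η) (Real.pi + η) → |x - Real.pi| ≤ η := by
    intro x hx
    rw [abs_le]
    constructor <;> linarith [hx.1, hx.2]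
  have hl : (4 / 3 - η0) ∈ S := ⟨le_rfl, by linarith⟩
  have hr : (4 / 3 + η0) ∈ S := ⟨by linarith, le_rfl⟩
  have hΦl : 0 < Φ (4 / 3 - η0) :=
    h.value_pos hm hεm hl (hx _ hl).1 (hx _ hl).2.2.1 (hx _ hl).2.2.2 (hminus _ (habs (hx _ hl).1))
  have hΦr : Φ (4 / 3 + η0) < 0 :=
    h.value_neg hm hεm hr (hx _ hr).1 (hx _ hr).2.2.1 (hx _ hr).2.2.2 (hplus _ (habs (hx _ hr).1))
  obtain ⟨θ, hθ, hθl, hθ0, hθpos⟩ := exists_least_zero (by linarith) hΦc hΦl hΦr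
  obtain ⟨k1, k2, k3, k4⟩ := hx θ hθ
  have hy := h.y_bound hθ k1
  rw [← h.y_eq hθ] at hy
  obtain ⟨z1, z2, hz⟩ := (h.hS0 θ hθ).second h.hη hη1 h.hε k3 k4 hy.1 hy.2 hθ0
  have hμx : √(θ * ν ^ 2 - ν ^ 2) * (x θ / √(θ * ν ^ 2 - ν ^ 2)) = x θ := by
    rw [mul_div_assoc', mul_div_cancel_left₀ _ (hμ θ hθ).ne']
  refine ⟨θ, x θ, tt θ, hθ, k1, rfl, k3, k4, hθ0, k2, hz, ?_, ?_⟩
  · intro t ht
    exact (h.hSl θ hθ).first_pos h.hη hη1 h.hε k4 (by rw [hμx]; exact k1.2) k2 ht.1 ht.2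
  · intro e he
    have hd : 0 < deriv (yf c (θ * ν ^ 2)) (tt θ) := (h.hS0 θ hθ).P4 h.hη hη1 h.hε k3 k4 z1 z2
    have hne : ∃ t ∈ Ioo 0 (tt θ), yf c (θ * ν ^ 2) t ≠ 0 := by
      obtain ⟨z, hz1, hz2⟩ := hz
      refine ⟨z / 2, ⟨by linarith [hz1.1], by linarith [hz1.1, hz1.2]⟩, ?_⟩
      intro h0
      have := (hz2 (z / 2) ⟨by linarith [hz1.1], by linarith [hz1.1, hz1.2]⟩).mp h0
      linarith [hz1.1]
    obtain ⟨lam', hl1, hl2, hl3⟩ := wr k3 hθ0 hd hne he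
    -- continuity in `L`
    have hc1 : ContinuousAt (yf c lam') (tt θ) := ((yf_spec c lam').2.2.1 _).continuousAt
    have hev1 : ∀ᶠ L' in 𝓝 (tt θ), yf c lam' L' < 0 := hc1.eventually (gt_mem_nhds hl3)
    have hev2 : ∀ᶠ θ' in 𝓝[S] θ, yf c lam' (tt θ') < 0 := (httc θ hθ).eventually hev1
    have hev3 : ∀ᶠ θ' in 𝓝[S] θ, |tt θ' - tt θ| < e := by
      have := (httc θ hθ).eventually (Metric.ball_mem_nhds (tt θ) he)
      filter_upwards [this] with θ' hθ'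
      exact hθ'
    have hcm : ContinuousAt (fun θ' : ℝ => θ' * ν ^ 2) θ := by fun_prop
    have hev4 : ∀ᶠ θ' in 𝓝[S] θ, lam' < θ' * ν ^ 2 :=
      nhdsWithin_le_nhds (hcm.eventually (lt_mem_nhds hl2))
    have hev5 : ∀ᶠ θ' in 𝓝[S] θ, |θ' * ν ^ 2 - θ * ν ^ 2| < e := by
      have := nhdsWithin_le_nhds (s := S) (hcm.eventually (Metric.ball_mem_nhds (θ * ν ^ 2) he))
      filter_upwards [this] with θ' hθ'
      exact hθ'
    have hall := hev2.and (hev3.and (hev4.and hev5))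
    have hsub : 𝓝[Ioo (4 / 3 - η0) θ] θ ≤ 𝓝[S] θ :=
      nhdsWithin_mono _ (fun y hy => ⟨hy.1.le, hy.2.le.trans hθ.2⟩)
    have hnb : (𝓝[Ioo (4 / 3 - η0) θ] θ).NeBot := by
      rw [nhdsWithin_Ioo_eq_nhdsLT hθl]
      infer_instance
    obtain ⟨θ', ⟨a1, a2, a3, a4⟩, a5⟩ := ((hall.filter_mono hsub).and
      (self_mem_nhdsWithin : ∀ᶠ y in 𝓝[Ioo (4 / 3 - η0) θ] θ, y ∈ Ioo (4 / 3 - η0) θ)).exists
    have hθ'S : θ' ∈ S := ⟨a5.1.le, a5.2.le.trans hθ.2⟩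
    have hpos : 0 < Φ θ' := hθpos θ' hθ'S a5.2
    obtain ⟨q1, q2, q3, q4⟩ := hx θ' hθ'S
    have hlc : Continuous (fun l : ℝ => yf c l (tt θ')) :=
      (yf_continuous c).1.comp (Continuous.prodMk continuous_id continuous_const)
    obtain ⟨lam1, hb1, hb2⟩ := intermediate_value_Icc a3.le hlc.continuousOn
      (⟨a1.le, hpos.le⟩ : (0 : ℝ) ∈ Icc (yf c lam' (tt θ')) (yf c (θ' * ν ^ 2) (tt θ')))
    have hlt : lam1 < θ' * ν ^ 2 := by
      rcases eq_or_lt_of_le hb1.2 with h1 | h1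
      · exfalso
        simp only at hb2
        rw [h1] at hb2
        have : Φ θ' = 0 := hb2
        linarith
      · exact h1
    refine ⟨tt θ', lam1, θ' * ν ^ 2, q3, a2, ?_, a4, hlt, hb2, q2⟩
    have h1 : θ' * ν ^ 2 < θ * ν ^ 2 := by
      apply mul_lt_mul_of_pos_right a5.2 (by positivity)
    rw [abs_lt]
    constructor
    · linarith [hb1.1]
    · linarith

lemma sinLike_of_thin {δ0 ε ν c η0 : ℝ} (hν : 0 < ν) (hη0 : η0 ≤ 1 / 10)
    (h : ∀ ν lam t : ℝ, 0 < t → t < δ0 → ν ^ 2 < lam → t ^ 2 * lam ≤ 100 →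
      |yf ν lam t - Real.sin (√(lam - ν ^ 2) * t) / √(lam - ν ^ 2)| ≤ ε * t ∧
        |deriv (yf ν lam) t - Real.cos (√(lam - ν ^ 2) * t)| ≤ ε)
    (hδ0 : 7 / ν < δ0) (hc : c ^ 2 ≤ ν ^ 2) {θ : ℝ} (hθ : θ ∈ Icc (4 / 3 - η0) (4 / 3 + η0)) :
    SinLike (yf c (θ * ν ^ 2)) (√(θ * ν ^ 2 - c ^ 2)) ε (7 / ν) := by
  have hθ1 : 37 / 30 ≤ θ := by linarith [hθ.1]
  have hθ2 : θ ≤ 43 / 30 := by linarith [hθ.2]
  have hν2 : 0 < ν ^ 2 := by positivity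
  have hlt : c ^ 2 < θ * ν ^ 2 := by nlinarith
  have hB : ∀ t : ℝ, 0 < t → t ≤ 7 / ν → t ^ 2 * (θ * ν ^ 2) ≤ 100 := by
    intro t ht htT
    rw [le_div_iff₀ hν] at htT
    have h1 : (t * ν) ^ 2 ≤ 49 := by
      have : 0 ≤ t * ν := by positivity
      nlinarith
    have h2 : t ^ 2 * (θ * ν ^ 2) = θ * (t * ν) ^ 2 := by ring
    rw [h2]
    nlinarith [sq_nonneg (t * ν)]
  refine ⟨Real.sqrt_pos.mpr (by linarith), (yf_spec _ _).2.2.1, ?_, ?_⟩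
  · intro t ht htT
    exact (h c (θ * ν ^ 2) t ht (lt_of_le_of_lt htT hδ0) hlt (hB t ht htT)).1
  · intro t ht htT
    exact (h c (θ * ν ^ 2) t ht (lt_of_le_of_lt htT hδ0) hlt (hB t ht htT)).2

end Cross

open Cross in
/-- CROSSING. For `δ > 0` and all large `l` there are `L` and `lam` with
`yf c lam L = 0`, `yf (l+c) lam L = 0`, close to the thin limit, and `L_i → L`,
`lam1 i < lam2 i → lam` eigenvalues of the modes `0` and `l` for `L_i`. -/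
theorem crossing (hN : 3 ≤ N) {δ : ℝ} (hδ : 0 < δ) : ∀ᶠ l : ℕ in atTop,
    ∃ (L lam : ℝ) (Ls lam1 lam2 : ℕ → ℝ), 0 < L ∧ L < δ ∧ 0 < lam ∧
      |L * (l + cc N) - Real.sqrt 3 * Real.pi| < δ ∧ |L ^ 2 * lam - 4 * Real.pi ^ 2| < δ ∧
      yf (cc N) lam L = 0 ∧ yf (l + cc N) lam L = 0 ∧
      Tendsto Ls atTop (𝓝 L) ∧ Tendsto lam1 atTop (𝓝 lam) ∧ Tendsto lam2 atTop (𝓝 lam) ∧
      (∀ i, 0 < Ls i) ∧ (∀ i, lam1 i < lam2 i) ∧
      (∀ i, yf (cc N) (lam1 i) (Ls i) = 0) ∧ (∀ i, yf (l + cc N) (lam2 i) (Ls i) = 0) ∧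
      (∃ z ∈ Ioo 0 L, ∀ t ∈ Ioo 0 L, yf (cc N) lam t = 0 ↔ t = z) ∧
      (∀ t ∈ Ioo 0 L, 0 < yf (l + cc N) lam t) := by
  have hc : 0 < cc N := by
    rw [cc]
    have : (3 : ℝ) ≤ N := by exact_mod_cast hN
    linarith
  obtain ⟨η0, hη0, hη0', h0⟩ := step0 hδ
  obtain ⟨η1, m1, hη1, hm1, h1⟩ := step1 (θ := 4 / 3 - η0) (by linarith) 1 (sin_minus hη0 hη0')
  obtain ⟨η2, m2, hη2, hm2, h2⟩ := step1 (θ := 4 / 3 + η0) (by linarith) (-1) (sin_plus hη0 hη0')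
  set η := min η0 (min η1 η2) with hη
  set m := min m1 m2 with hm
  have hηpos : 0 < η := lt_min hη0 (lt_min hη1 hη2)
  have hmpos : 0 < m := lt_min hm1 hm2
  have hη3 : η ≤ 1 / 2 := (min_le_left _ _).trans (by linarith)
  have hsin := sin_eta_pos hηpos hη3
  set ε := min (Real.sin η / 10) (m / 10) with hε
  have hεpos : 0 < ε := lt_min (by positivity) (by positivity)
  obtain ⟨δ0, hδ0, hthin⟩ := thinB 100 hεpos
  have ht : Tendsto (fun l : ℕ => (l : ℝ) + cc N) atTop atTop :=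
    tendsto_atTop_add_const_right _ _ tendsto_natCast_atTop_atTop
  have ht1 : Tendsto (fun l : ℕ => 7 / ((l : ℝ) + cc N)) atTop (𝓝 0) := ht.const_div_atTop 7
  have ht2 : Tendsto (fun l : ℕ => (cc N) ^ 2 / ((l : ℝ) + cc N) ^ 2) atTop (𝓝 0) :=
    ((tendsto_pow_atTop (by norm_num : (2 : ℕ) ≠ 0)).comp ht).const_div_atTop _
  filter_upwards [ht1.eventually (gt_mem_nhds hδ0), ht1.eventually (gt_mem_nhds hδ),
    ht2.eventually (gt_mem_nhds hηpos), ht2.eventually (gt_mem_nhds (show (0 : ℝ) < 1 / 100 by norm_num))]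
    with l e1 e2 e3 e4
  have hl0 : (0 : ℝ) ≤ l := Nat.cast_nonneg l
  set ν : ℝ := (l : ℝ) + cc N with hν
  have hνpos : 0 < ν := by rw [hν]; linarith
  have hcν : cc N ^ 2 ≤ ν ^ 2 := by
    apply pow_le_pow_left₀ hc.le
    rw [hν]; linarith
  have hcore : Core ν (cc N) η0 η ε (7 / ν) :=
    ⟨hνpos, hc.le, hη0, hη0', hηpos, min_le_left _ _, min_le_left _ _, e4.le, rfl,
      fun θ hθ => sinLike_of_thin hνpos hη0' hthin e1 le_rfl hθ,
      fun θ hθ => sinLike_of_thin hνpos hη0' hthin e1 hcν hθ⟩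
  have hs0 : |cc N ^ 2 / ν ^ 2| ≤ η := by
    rw [abs_of_nonneg (by positivity)]; exact e3.le
  obtain ⟨θ, x, L, hθ, hx, hL, hLpos, hLT, k1, k2, k3, k4, k5⟩ := hcore.main hmpos (min_le_right _ _)
    (fun x hx => (min_le_left _ _).trans (h1 x _ (hx.trans ((min_le_right _ _).trans (min_le_left _ _)))
      (hs0.trans ((min_le_right _ _).trans (min_le_left _ _)))))
    (fun x hx => (min_le_right _ _).trans (h2 x _ (hx.trans ((min_le_right _ _).trans (min_le_right _ _)))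
      (hs0.trans ((min_le_right _ _).trans (min_le_right _ _)))))
  have hθ1 := hcore.θ1 hθ
  have hsq : 0 < √(θ - 1) := Real.sqrt_pos.mpr (by linarith)
  have hsq2 : √(θ - 1) ^ 2 = θ - 1 := Real.sq_sqrt (by linarith)
  rw [hcore.μl] at hL
  have hxη : |x - Real.pi| ≤ η0 := by
    have : η ≤ η0 := min_le_left _ _
    rw [abs_le]
    constructor <;> linarith [hx.1, hx.2]
  have hθη : |θ - 4 / 3| ≤ η0 := by
    rw [abs_le]
    constructor <;> linarith [hθ.1, hθ.2]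
  obtain ⟨g1, g2⟩ := h0 x θ hxη hθη
  have hLν : L * ν = x / √(θ - 1) := by
    rw [hL]; field_simp
  have hLl : L ^ 2 * (θ * ν ^ 2) = x ^ 2 * θ / (θ - 1) := by
    have : L ^ 2 * (θ * ν ^ 2) = (L * ν) ^ 2 * θ := by ring
    rw [this, hLν, div_pow, hsq2]
    ring
  have hseq : ∀ i : ℕ, ∃ L' lam1 lam2 : ℝ, 0 < L' ∧ |L' - L| < 1 / ((i : ℝ) + 1) ∧
      |lam1 - θ * ν ^ 2| < 1 / ((i : ℝ) + 1) ∧ |lam2 - θ * ν ^ 2| < 1 / ((i : ℝ) + 1) ∧
      lam1 < lam2 ∧ yf (cc N) lam1 L' = 0 ∧ yf ν lam2 L' = 0 :=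
    fun i => k5 _ (by positivity)
  choose Ls lam1 lam2 s1 s2 s3 s4 s5 s6 s7 using hseq
  have hto : ∀ (u : ℕ → ℝ) (a : ℝ), (∀ i, |u i - a| < 1 / ((i : ℝ) + 1)) → Tendsto u atTop (𝓝 a) := by
    intro u a hu
    rw [tendsto_iff_dist_tendsto_zero]
    refine squeeze_zero (fun _ => dist_nonneg) (fun i => ?_) tendsto_one_div_add_atTop_nhds_zero_nat
    rw [Real.dist_eq]
    exact (hu i).le
  refine ⟨L, θ * ν ^ 2, Ls, lam1, lam2, hLpos, lt_of_le_of_lt hLT e2, ?_, ?_, ?_, k1, k2,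
    hto _ _ s2, hto _ _ s3, hto _ _ s4, s1, s5, s6, s7, k3, k4⟩
  · have : 0 < θ := by linarith
    positivity
  · rw [hLν]; exact g1
  · rw [hLl]; exact g2

end Pool.Agent.helper13.BN
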