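import Pool.Agent.helper3.BN.Kop
import Pool.Agent.helper58.BN.Solve
import Pool.Agent.helper41.BN.Pw
import Pool.Agent.helper22.BN.AxSp
import Pool.Agent.helper13.BN.Stmt

/-!
# MP_94a57f_an, module D3: the functional, its gradient and its Hessian
-/

set_option autoImplicit false
open MeasureTheory Filter Topology Set Metric
open scoped ContDiff Gradient RealInnerProductSpace ENNReal

noncomputable section
namespace Pool.Agent.helper13.BN
variable {N : ℕ}

namespace Func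

lemma meas_ann (ρ : ℝ) : MeasurableSet (ann N ρ) := by
  have h : ann N ρ = {x | ρ < ‖x‖} ∩ {x | ‖x‖ < 1} := rfl
  rw [h]
  exact ((isOpen_lt continuous_const continuous_norm).inter
    (isOpen_lt continuous_norm continuous_const)).measurableSet

lemma ann_ball (ρ : ℝ) : ann N ρ ⊆ ball (0 : E N) 1 := fun x hx => by
  rw [mem_ball_zero_iff]
  exact hx.2

instance finite_ann (ρ : ℝ) : IsFiniteMeasure (volume.restrict (ann N ρ)) := ⟨by
  rw [Measure.restrict_apply_univ]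
  exact lt_of_le_of_lt (measure_mono (ann_ball ρ)) measure_ball_lt_top⟩

lemma XS_DD (hN : 3 ≤ N) {e : E N} {ρ : ℝ} (w : XS e ρ) : (w : LV N) ∈ DD (univ : Set (E N)) :=
  DD_mono (subset_univ _) ((mem_XS hN).1 w.2).1

lemma Mq_fn (hN : 3 ≤ N) {e : E N} {ρ : ℝ} (w : XS e ρ) (Ω : Set (E N)) :
    Mq (ts N) Ω (fn (w : LV N)) := Mq_univ58 Ω (sobolev hN (XS_DD hN w)).1

lemma nq_fn (hN : 3 ≤ N) {e : E N} {ρ : ℝ} (w : XS e ρ) (Ω : Set (E N)) :
    nq (ts N) Ω (fn (w : LV N)) ≤ SS N * ‖w‖ :=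
  (nq_mono_set58 Ω (sobolev hN (XS_DD hN w)).1).trans (sobolev hN (XS_DD hN w)).2

lemma holder_gen {p q r : ℝ} (hp : 0 < p) (hq : 0 < q) (hr : 0 < r) (h : p⁻¹ + q⁻¹ = r⁻¹)
    {Ω : Set (E N)} {a u : E N → ℝ} (ha : Mq p Ω a) (hu : Mq q Ω u) :
    Mq r Ω (fun x => a x * u x) ∧ nq r Ω (fun x => a x * u x) ≤ nq p Ω a * nq q Ω u := by
  have := holderTriple58 hp hq hr h
  refine ⟨hu.mul ha, ?_⟩
  have h4 : eLpNorm (fun x => a x * u x) (ENNReal.ofReal r) (volume.restrict Ω) ≤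
      eLpNorm a (ENNReal.ofReal p) (volume.restrict Ω) *
        eLpNorm u (ENNReal.ofReal q) (volume.restrict Ω) := by
    have := eLpNorm_smul_le_mul_eLpNorm (μ := volume.restrict Ω) (p := ENNReal.ofReal p)
      (q := ENNReal.ofReal q) (r := ENNReal.ofReal r) hu.1 ha.1
    exact this
  unfold nq
  rw [← ENNReal.toReal_mul]
  exact ENNReal.toReal_mono (ENNReal.mul_ne_top ha.2.ne hu.2.ne) h4

/-- powers -/
lemma Mq_rpow {q s : ℝ} (hq : 0 < q) (hs : 0 < s) {Ω : Set (E N)} {u : E N → ℝ}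
    (hu : Mq q Ω u) : Mq (q / s) Ω (fun x => |u x| ^ s) ∧
      nq (q / s) Ω (fun x => |u x| ^ s) = nq q Ω u ^ s := by
  have h1 : eLpNorm (fun x => |u x| ^ s) (ENNReal.ofReal (q / s)) (volume.restrict Ω) =
      eLpNorm u (ENNReal.ofReal q) (volume.restrict Ω) ^ s := by
    have := eLpNorm_norm_rpow (μ := volume.restrict Ω) (p := ENNReal.ofReal (q / s)) u hs
    rw [← ENNReal.ofReal_mul (by positivity), div_mul_cancel₀ _ hs.ne'] at this
    simpa [Real.norm_eq_abs] using this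
  refine ⟨⟨?_, ?_⟩, ?_⟩
  · have : AEStronglyMeasurable (fun x => ‖u x‖ ^ s) (volume.restrict Ω) :=
      (hu.1.norm.aemeasurable.pow_const s).aestronglyMeasurable
    exact this
  · rw [h1]
    exact ENNReal.rpow_lt_top_of_nonneg hs.le hu.2.ne
  · unfold nq
    rw [h1, ENNReal.toReal_rpow]

lemma hN3 (hN : 3 ≤ N) : (3 : ℝ) ≤ N := by exact_mod_cast hN

lemma pm_gt_one (hN : 3 ≤ N) (hN5 : N ≤ 5) : 0 < pm N - 1 := by
  have h3 := hN3 hN
  have h5 : (N : ℝ) ≤ 5 := by exact_mod_cast hN5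
  unfold pm
  rw [sub_pos, lt_div_iff₀ (by linarith)]
  linarith

lemma ts_eq (hN : 3 ≤ N) : ts N = pm N + 2 := by
  have h3 := hN3 hN
  have : (N : ℝ) - 2 ≠ 0 := by linarith
  unfold pm ts
  field_simp
  ring

lemma td_eq (hN : 3 ≤ N) (hN5 : N ≤ 5) : ts N / (pm N + 1) = td N := by
  have h3 := hN3 hN
  have := pm_gt_one hN hN5
  rw [div_eq_iff (by linarith)]
  unfold td pm ts
  have : (N : ℝ) - 2 ≠ 0 := by linarith
  have : (N : ℝ) + 2 ≠ 0 := by linarith
  field_simp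
  ring

lemma half_eq (hN : 3 ≤ N) (hN5 : N ≤ 5) : ts N / pm N = N / 2 := by
  have h3 := hN3 hN
  have := pm_gt_one hN hN5
  rw [div_eq_iff (by linarith)]
  unfold pm ts
  have : (N : ℝ) - 2 ≠ 0 := by linarith
  field_simp
  norm_num

lemma hol_eq (hN : 3 ≤ N) (hN5 : N ≤ 5) : (ts N / (pm N - 1))⁻¹ + (ts N)⁻¹ = ((N : ℝ) / 2)⁻¹ := by
  have h3 := hN3 hN
  have h1 := pm_gt_one hN hN5
  have h2 := ts_pos58 hN
  rw [← half_eq hN hN5]
  rw [inv_div, inv_div]
  field_simp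
  ring

lemma continuous_nl (hN : 3 ≤ N) (hN5 : N ≤ 5) : Continuous (nl N) :=
  continuous_iff_continuousAt.mpr fun u => (hasDerivAt_nl hN hN5 u).continuousAt

lemma continuous_NL (hN : 3 ≤ N) (hN5 : N ≤ 5) : Continuous (NL N) :=
  continuous_iff_continuousAt.mpr fun u => (hasDerivAt_NL hN hN5 u).continuousAt

lemma abs_nl (hN : 3 ≤ N) (hN5 : N ≤ 5) (u : ℝ) : |nl N u| = |u| ^ (pm N + 1) := by
  have h1 := pm_gt_one hN hN5
  unfold nl
  rw [abs_mul, abs_of_nonneg (Real.rpow_nonneg (abs_nonneg u) _),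
    Real.rpow_add_one' (abs_nonneg u) (by linarith)]

lemma Mq_nl (hN : 3 ≤ N) (hN5 : N ≤ 5) {Ω : Set (E N)} {u : E N → ℝ} (hu : Mq (ts N) Ω u) :
    Mq (td N) Ω (fun x => nl N (u x)) := by
  have h1 := pm_gt_one hN hN5
  have h2 := (Mq_rpow (ts_pos58 hN) (by linarith : 0 < pm N + 1) hu).1
  rw [td_eq hN hN5] at h2
  refine MemLp.of_le h2 ((continuous_nl hN hN5).comp_aestronglyMeasurable hu.1) ?_
  filter_upwards with x
  rw [Real.norm_eq_abs, Real.norm_eq_abs, abs_nl hN hN5,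
    abs_of_nonneg (Real.rpow_nonneg (abs_nonneg _) _)]

lemma Mq_dnl (hN : 3 ≤ N) (hN5 : N ≤ 5) {Ω : Set (E N)} {u : E N → ℝ} (hu : Mq (ts N) Ω u) :
    Mq (N / 2) Ω (fun x => dnl N (u x)) := by
  have h1 := pm_gt_one hN hN5
  have h2 := (Mq_rpow (ts_pos58 hN) (by linarith : 0 < pm N) hu).1
  rw [half_eq hN hN5] at h2
  exact h2.const_mul (pm N + 1)

/-- the product `|f|^{p-2} |g|` in `L^{N/2}` -/
lemma key (hN : 3 ≤ N) (hN5 : N ≤ 5) {Ω : Set (E N)} {f g : E N → ℝ} (hf : Mq (ts N) Ω f)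
    (hg : Mq (ts N) Ω g) : Mq (N / 2) Ω (fun x => |f x| ^ (pm N - 1) * |g x|) ∧
      nq (N / 2) Ω (fun x => |f x| ^ (pm N - 1) * |g x|) ≤ nq (ts N) Ω f ^ (pm N - 1) * nq (ts N) Ω g := by
  have h1 := pm_gt_one hN hN5
  have hts := ts_pos58 hN
  have h3 := hN3 hN
  obtain ⟨k1, k2⟩ := Mq_rpow hts h1 hf
  have hg' : Mq (ts N) Ω (fun x => |g x|) := hg.norm
  have hg2 : nq (ts N) Ω (fun x => |g x|) = nq (ts N) Ω g := by
    unfold nq
    congr 1
    exact eLpNorm_norm g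
  have := holder_gen (p := ts N / (pm N - 1)) (q := ts N) (r := (N : ℝ) / 2) (by positivity) hts
    (by linarith) (hol_eq hN hN5) k1 hg'
  rw [k2, hg2] at this
  exact this

lemma nq_nonneg {q : ℝ} {Ω : Set (E N)} {g : E N → ℝ} : 0 ≤ nq q Ω g := ENNReal.toReal_nonneg

lemma nq_le_of_abs {q : ℝ} {Ω : Set (E N)} {f g : E N → ℝ} (hg : Mq q Ω g) (hf : Mq q Ω f)
    (h : ∀ᵐ x ∂(volume.restrict Ω), |f x| ≤ |g x|) : nq q Ω f ≤ nq q Ω g := by
  unfold nq
  refine ENNReal.toReal_mono hg.2.ne (eLpNorm_mono_ae ?_)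
  filter_upwards [h] with x hx
  simpa [Real.norm_eq_abs] using hx

lemma nq_add_le {q : ℝ} (hq : 1 ≤ q) {Ω : Set (E N)} {f g : E N → ℝ} (hf : Mq q Ω f)
    (hg : Mq q Ω g) : nq q Ω (fun x => f x + g x) ≤ nq q Ω f + nq q Ω g := by
  unfold nq
  rw [← ENNReal.toReal_add hf.2.ne hg.2.ne]
  refine ENNReal.toReal_mono (ENNReal.add_ne_top.2 ⟨hf.2.ne, hg.2.ne⟩)
    (eLpNorm_add_le hf.1 hg.1 ?_)
  rw [← ENNReal.ofReal_one]
  exact ENNReal.ofReal_le_ofReal hq

lemma nq_const_mul {q : ℝ} {Ω : Set (E N)} {f : E N → ℝ} {c : ℝ} (hc : 0 ≤ c) :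
    nq q Ω (fun x => c * f x) = c * nq q Ω f := by
  unfold nq
  have := eLpNorm_const_smul c f (ENNReal.ofReal q) (volume.restrict Ω)
  have h2 : (c • f) = fun x => c * f x := rfl
  rw [h2] at this
  rw [this, ENNReal.toReal_mul]
  congr 1
  simp [abs_of_nonneg hc]

/-- the remainder of the Taylor expansion -/
lemma rem_bound (hN : 3 ≤ N) (hN5 : N ≤ 5) : ∃ C : ℝ, 0 < C ∧ ∀ (Ω : Set (E N)) (f g : E N → ℝ),
    Mq (ts N) Ω f → Mq (ts N) Ω g →
    Mq (td N) Ω (fun x => nl N (f x + g x) - nl N (f x) - dnl N (f x) * g x) ∧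
    nq (td N) Ω (fun x => nl N (f x + g x) - nl N (f x) - dnl N (f x) * g x) ≤
      C * (nq (ts N) Ω f ^ (pm N - 1) + nq (ts N) Ω g ^ (pm N - 1)) * nq (ts N) Ω g ^ 2 := by
  obtain ⟨C, hC, hCle⟩ := nl_taylor hN hN5
  refine ⟨C, hC, ?_⟩
  intro Ω f g hf hg
  have h3 := hN3 hN
  have htd : 1 ≤ td N := by
    unfold td
    rw [le_div_iff₀ (by linarith)]
    linarith
  have hfg : Mq (ts N) Ω (fun x => f x + g x) := hf.add hg
  have m1 := Mq_nl hN hN5 hfg
  have m2 := Mq_nl hN hN5 hf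
  have m3 := (holder_pot hN (Mq_dnl hN hN5 hf) hg).1
  have m4 : Mq (td N) Ω (fun x => nl N (f x + g x) - nl N (f x) - dnl N (f x) * g x) :=
    (m1.sub m2).sub m3
  refine ⟨m4, ?_⟩
  obtain ⟨a1, a2⟩ := key hN hN5 hf hg
  obtain ⟨b1, b2⟩ := key hN hN5 hg hg
  have hg' : Mq (ts N) Ω (fun x => |g x|) := hg.norm
  have hg2 : nq (ts N) Ω (fun x => |g x|) = nq (ts N) Ω g := by
    unfold nq
    congr 1
    exact eLpNorm_norm g
  obtain ⟨a3, a4⟩ := holder_pot hN a1 hg'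
  obtain ⟨b3, b4⟩ := holder_pot hN b1 hg'
  rw [hg2] at a4 b4
  set A := fun x => |f x| ^ (pm N - 1) * |g x| * |g x| with hA
  set B := fun x => |g x| ^ (pm N - 1) * |g x| * |g x| with hB
  have c1 : Mq (td N) Ω (fun x => A x + B x) := a3.add b3
  have c2 : Mq (td N) Ω (fun x => C * (A x + B x)) := c1.const_mul C
  have c3 : nq (td N) Ω (fun x => nl N (f x + g x) - nl N (f x) - dnl N (f x) * g x) ≤
      nq (td N) Ω (fun x => C * (A x + B x)) := by
    apply nq_le_of_abs c2 m4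
    filter_upwards with x
    refine (hCle (f x) (g x)).trans ?_
    have hnn : 0 ≤ C * (A x + B x) := by simp only [hA, hB]; positivity
    rw [abs_of_nonneg hnn]
    apply le_of_eq
    simp only [hA, hB]
    rw [← sq_abs (g x)]
    ring
  refine c3.trans ?_
  rw [nq_const_mul hC.le, mul_assoc]
  apply mul_le_mul_of_nonneg_left _ hC.le
  refine (nq_add_le htd a3 b3).trans ?_
  rw [add_mul]
  have hgn : 0 ≤ nq (ts N) Ω g := nq_nonneg
  apply add_le_add
  · refine a4.trans ?_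
    rw [pow_two, ← mul_assoc]
    exact mul_le_mul_of_nonneg_right a2 hgn
  · refine b4.trans ?_
    rw [pow_two, ← mul_assoc]
    exact mul_le_mul_of_nonneg_right b2 hgn

/-- the difference of the second derivatives -/
lemma dnl_bound (hN : 3 ≤ N) (hN5 : N ≤ 5) : ∃ C : ℝ, 0 < C ∧ ∀ (Ω : Set (E N)) (f g : E N → ℝ),
    Mq (ts N) Ω f → Mq (ts N) Ω g →
    Mq (N / 2) Ω (fun x => dnl N (f x) - dnl N (g x)) ∧
    nq (N / 2) Ω (fun x => dnl N (f x) - dnl N (g x)) ≤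
      C * (nq (ts N) Ω f ^ (pm N - 1) + nq (ts N) Ω g ^ (pm N - 1)) *
        nq (ts N) Ω (fun x => f x - g x) := by
  obtain ⟨C, hC, hCle⟩ := dnl_lip hN hN5
  refine ⟨C, hC, ?_⟩
  intro Ω f g hf hg
  have h3 := hN3 hN
  have hh : 1 ≤ (N : ℝ) / 2 := by linarith
  have hfg : Mq (ts N) Ω (fun x => f x - g x) := hf.sub hg
  have m4 : Mq (N / 2) Ω (fun x => dnl N (f x) - dnl N (g x)) :=
    (Mq_dnl hN hN5 hf).sub (Mq_dnl hN hN5 hg)
  refine ⟨m4, ?_⟩
  obtain ⟨a1, a2⟩ := key hN hN5 hf hfg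
  obtain ⟨b1, b2⟩ := key hN hN5 hg hfg
  set A := fun x => |f x| ^ (pm N - 1) * |f x - g x| with hA
  set B := fun x => |g x| ^ (pm N - 1) * |f x - g x| with hB
  have c1 : Mq (N / 2) Ω (fun x => A x + B x) := a1.add b1
  have c2 : Mq (N / 2) Ω (fun x => C * (A x + B x)) := c1.const_mul C
  have c3 : nq (N / 2) Ω (fun x => dnl N (f x) - dnl N (g x)) ≤
      nq (N / 2) Ω (fun x => C * (A x + B x)) := by
    apply nq_le_of_abs c2 m4
    filter_upwards with x
    refine (hCle (f x) (g x)).trans ?_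
    have hnn : 0 ≤ C * (A x + B x) := by simp only [hA, hB]; positivity
    rw [abs_of_nonneg hnn]
    apply le_of_eq
    simp only [hA, hB]
    ring
  refine c3.trans ?_
  rw [nq_const_mul hC.le, mul_assoc]
  apply mul_le_mul_of_nonneg_left _ hC.le
  refine (nq_add_le hh a1 b1).trans ?_
  rw [add_mul]
  exact add_le_add a2 b2

lemma axial_ind {e : E N} {ρ : ℝ} {f : E N → ℝ} (hf : Axial e f) {G : ℝ → ℝ} (hG : Measurable G) :
    Axial e ((ann N ρ).indicator fun x => G (f x)) := by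
  classical
  obtain ⟨k, hk, hx⟩ := hf
  refine ⟨fun p => if ρ < p.1 ∧ p.1 < 1 then G (k p) else 0, ?_, ?_⟩
  · refine Measurable.ite ?_ (hG.comp hk) measurable_const
    exact (measurableSet_lt measurable_const measurable_fst).inter
      (measurableSet_lt measurable_fst measurable_const)
  · filter_upwards [hx] with x h
    by_cases hxa : x ∈ ann N ρ
    · rw [indicator_of_mem hxa, if_pos (by exact hxa), h]
    · rw [indicator_of_notMem hxa, if_neg (by exact hxa)]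

lemma one_le_td (hN : 3 ≤ N) : 1 ≤ td N := by
  have h3 := hN3 hN
  unfold td
  rw [le_div_iff₀ (by linarith)]
  linarith

lemma td_le_ts (hN : 3 ≤ N) : td N ≤ ts N := by
  have h3 := hN3 hN
  unfold td ts
  gcongr
  · linarith
  · linarith

lemma Mq_td_fn (hN : 3 ≤ N) {e : E N} {ρ : ℝ} (w : XS e ρ) : Mq (td N) (ann N ρ) (fn (w : LV N)) :=
  Mq_mono (ann_ball ρ) (td_pos58 hN) (td_le_ts hN) (Mq_fn hN w _)

lemma Mq_g (hN : 3 ≤ N) (hN5 : N ≤ 5) {e : E N} {ρ : ℝ} (lam : ℝ) (w : XS e ρ) :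
    Mq (td N) (ann N ρ) (fun x => lam * fn (w : LV N) x + nl N (fn (w : LV N) x)) :=
  ((Mq_td_fn hN w).const_mul lam).add (Mq_nl hN hN5 (Mq_fn hN w _))

lemma exists_z (hN : 3 ≤ N) (hN5 : N ≤ 5) {ρ : ℝ} (hρ : 0 < ρ) (hρ1 : ρ < 1) {e : E N}
    (he : ‖e‖ = 1) (lam : ℝ) (u : XS e ρ) : ∃ z : XS e ρ, (z : LV N) = (u : LV N) -
      T (ann N ρ) (fun x => lam * fn (u : LV N) x + nl N (fn (u : LV N) x)) := by
  have hG : Measurable (fun t : ℝ => lam * t + nl N t) :=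
    ((continuous_const.mul continuous_id).add (continuous_nl hN hN5)).measurable
  have h1 := axial_ind (ρ := ρ) ((mem_XS hN).1 u.2).2 hG
  have h2 := T_axial hN hρ hρ1 he (Mq_g hN hN5 lam u) h1
  exact ⟨u - ⟨_, h2⟩, rfl⟩

lemma pot_ax (hN : 3 ≤ N) (hN5 : N ≤ 5) {e : E N} {ρ : ℝ} (lam : ℝ) (u : XS e ρ) :
    Axial e ((ann N ρ).indicator fun x => lam + dnl N (fn (u : LV N) x)) := by
  have hG : Measurable (fun t : ℝ => lam + dnl N t) :=
    (continuous_const.add (continuous_dnl hN hN5)).measurable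
  exact axial_ind (ρ := ρ) ((mem_XS hN).1 u.2).2 hG

lemma pot_Mq (hN : 3 ≤ N) (hN5 : N ≤ 5) {e : E N} {ρ : ℝ} (lam : ℝ) (u : XS e ρ) :
    Mq (N / 2) (ann N ρ) (fun x => lam + dnl N (fn (u : LV N) x)) :=
  (memLp_const lam).add (Mq_dnl hN hN5 (Mq_fn hN u _))

end Func

open Func

theorem gg_apply (hN : 3 ≤ N) (hN5 : N ≤ 5) {ρ : ℝ} (hρ : 0 < ρ) (hρ1 : ρ < 1) {e : E N}
    (he : ‖e‖ = 1) (lam : ℝ) (u : XS e ρ) : (gg e ρ lam u : LV N) = (u : LV N) -
      T (ann N ρ) (fun x => lam * fn (u : LV N) x + nl N (fn (u : LV N) x)) := by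
  have h := exists_z hN hN5 hρ hρ1 he lam u
  unfold gg
  rw [dif_pos h]
  exact h.choose_spec

theorem gg_zero (hN : 3 ≤ N) (hN5 : N ≤ 5) {ρ : ℝ} (hρ : 0 < ρ) (hρ1 : ρ < 1) {e : E N}
    (he : ‖e‖ = 1) (lam : ℝ) (u : XS e ρ) : gg e ρ lam u = 0 ↔
      Weak (ann N ρ) (u : LV N) (fun x => lam * fn (u : LV N) x + nl N (fn (u : LV N) x)) := by
  rw [weak_iff_T hN (meas_ann ρ) (Mq_g hN hN5 lam u),
    ← sub_eq_zero (a := (u : LV N)), ← gg_apply hN hN5 hρ hρ1 he]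
  exact (Submodule.coe_eq_zero).symm

theorem func_symm (hN : 3 ≤ N) (hN5 : N ≤ 5) {ρ : ℝ} (hρ : 0 < ρ) (hρ1 : ρ < 1) {e : E N}
    (he : ‖e‖ = 1) (lam : ℝ) (u x y : XS e ρ) :
    ⟪Hess e ρ lam u x, y⟫ = ⟪x, Hess e ρ lam u y⟫ := by
  have h := Kop_symm hN hρ hρ1 he (pot_Mq hN hN5 lam u) (pot_ax hN hN5 lam u) x y
  unfold Hess
  rw [ContinuousLinearMap.sub_apply, ContinuousLinearMap.sub_apply, inner_sub_left, inner_sub_right, h]
  rfl

theorem func_lip (hN : 3 ≤ N) (hN5 : N ≤ 5) {ρ : ℝ} (hρ : 0 < ρ) (hρ1 : ρ < 1) {e : E N}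
    (he : ‖e‖ = 1) (R₀ : ℝ) : ∃ M : ℝ, 0 < M ∧ ∀ (lam : ℝ) (u u' : XS e ρ), ‖u‖ ≤ R₀ → ‖u'‖ ≤ R₀ →
      ‖Hess e ρ lam u - Hess e ρ lam u'‖ ≤ M * ‖u - u'‖ := by
  obtain ⟨C, hC, hb⟩ := dnl_bound hN hN5
  have hS := SS_pos (N := N)
  have hpm := pm_gt_one hN hN5
  refine ⟨SS N ^ 2 * (C * (2 * (SS N * |R₀|) ^ (pm N - 1)) * SS N) + 1, by positivity, ?_⟩
  intro lam u u' hu hu'
  have hR : 0 ≤ R₀ := (norm_nonneg u).trans hu
  rw [abs_of_nonneg hR]
  obtain ⟨m1, m2⟩ := hb (ann N ρ) (fn (u' : LV N)) (fn (u : LV N)) (Mq_fn hN u' _) (Mq_fn hN u _)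
  have hax : Axial e ((ann N ρ).indicator fun x =>
      (lam + dnl N (fn (u' : LV N) x)) - (lam + dnl N (fn (u : LV N) x))) := by
    have h := axial_comp (pot_ax hN hN5 lam u' (ρ := ρ)) (pot_ax hN hN5 lam u (ρ := ρ))
      (k := fun p => p.1 - p.2) (measurable_fst.sub measurable_snd)
    refine axial_ae h ?_
    filter_upwards with x
    by_cases hx : x ∈ ann N ρ
    · simp [indicator_of_mem hx]
    · simp [indicator_of_notMem hx]
  have hMq : Mq (N / 2) (ann N ρ) fun x =>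
      (lam + dnl N (fn (u' : LV N) x)) - (lam + dnl N (fn (u : LV N) x)) :=
    (pot_Mq hN hN5 lam u').sub (pot_Mq hN hN5 lam u)
  have h1 : Hess e ρ lam u - Hess e ρ lam u' = Kop e ρ (fun x =>
      (lam + dnl N (fn (u' : LV N) x)) - (lam + dnl N (fn (u : LV N) x))) := by
    rw [Kop_sub hN hρ hρ1 he (pot_Mq hN hN5 lam u') (pot_ax hN hN5 lam u')
      (pot_Mq hN hN5 lam u) (pot_ax hN hN5 lam u)]
    unfold Hess
    abel
  rw [h1]
  refine (Kop_norm hN hρ hρ1 he hMq hax).trans ?_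
  have h2 : nq (N / 2) (ann N ρ) (fun x =>
      (lam + dnl N (fn (u' : LV N) x)) - (lam + dnl N (fn (u : LV N) x))) =
      nq (N / 2) (ann N ρ) (fun x => dnl N (fn (u' : LV N) x) - dnl N (fn (u : LV N) x)) := by
    congr 1
    funext x
    ring
  rw [h2]
  have h3 : nq (ts N) (ann N ρ) (fun x => fn (u' : LV N) x - fn (u : LV N) x) ≤ SS N * ‖u - u'‖ := by
    have h4 : nq (ts N) (ann N ρ) (fun x => fn (u' : LV N) x - fn (u : LV N) x) =
        nq (ts N) (ann N ρ) (fn ((u' - u : XS e ρ) : LV N)) := by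
      unfold nq
      congr 1
      refine eLpNorm_congr_ae ?_
      filter_upwards [ae_restrict_of_ae (fn_sub hN (XS_DD hN u') (XS_DD hN u))] with x hx
      rw [← hx]
      rfl
    rw [h4, norm_sub_rev]
    exact nq_fn hN _ _
  have h5 : nq (ts N) (ann N ρ) (fn (u' : LV N)) ^ (pm N - 1) ≤ (SS N * R₀) ^ (pm N - 1) :=
    Real.rpow_le_rpow nq_nonneg ((nq_fn hN u' _).trans (by gcongr)) hpm.le
  have h6 : nq (ts N) (ann N ρ) (fn (u : LV N)) ^ (pm N - 1) ≤ (SS N * R₀) ^ (pm N - 1) :=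
    Real.rpow_le_rpow nq_nonneg ((nq_fn hN u _).trans (by gcongr)) hpm.le
  have h7 : nq (N / 2) (ann N ρ) (fun x => dnl N (fn (u' : LV N) x) - dnl N (fn (u : LV N) x)) ≤
      C * (2 * (SS N * R₀) ^ (pm N - 1)) * (SS N * ‖u - u'‖) := by
    refine m2.trans ?_
    have hnn : 0 ≤ nq (ts N) (ann N ρ) (fun x => fn (u' : LV N) x - fn (u : LV N) x) := nq_nonneg
    have : 0 ≤ (SS N * R₀) ^ (pm N - 1) := by positivity
    apply mul_le_mul _ h3 hnn (by positivity)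
    apply mul_le_mul_of_nonneg_left _ hC.le
    linarith
  calc SS N ^ 2 * nq (N / 2) (ann N ρ) (fun x => dnl N (fn (u' : LV N) x) - dnl N (fn (u : LV N) x))
      ≤ SS N ^ 2 * (C * (2 * (SS N * R₀) ^ (pm N - 1)) * (SS N * ‖u - u'‖)) := by gcongr
    _ = SS N ^ 2 * (C * (2 * (SS N * R₀) ^ (pm N - 1)) * SS N) * ‖u - u'‖ := by ring
    _ ≤ _ := by
      apply mul_le_mul_of_nonneg_right _ (norm_nonneg _)
      linarith

theorem func_g (hN : 3 ≤ N) (hN5 : N ≤ 5) {ρ : ℝ} (hρ : 0 < ρ) (hρ1 : ρ < 1) {e : E N}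
    (he : ‖e‖ = 1) (lam : ℝ) (u : XS e ρ) :
    HasFDerivAt (gg e ρ lam) (Hess e ρ lam u) u := by
  obtain ⟨C, hC, hb⟩ := rem_bound hN hN5
  have hS := SS_pos (N := N)
  have hpm := pm_gt_one hN hN5
  have hm := meas_ann (N := N) ρ
  have key1 : ∀ h : XS e ρ, ‖gg e ρ lam (u + h) - gg e ρ lam u - Hess e ρ lam u h‖ ≤
      (SS N * (C * ((SS N * ‖u‖) ^ (pm N - 1) + (SS N * ‖h‖) ^ (pm N - 1)) * SS N ^ 2)) *
        ‖h‖ ^ 2 := by
    intro h
    set f := fn (u : LV N) with hf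
    set g := fn (h : LV N) with hg
    obtain ⟨m1, m2⟩ := hb (ann N ρ) f g (Mq_fn hN u _) (Mq_fn hN h _)
    have e1 : ((gg e ρ lam (u + h) - gg e ρ lam u - Hess e ρ lam u h : XS e ρ) : LV N) =
        - T (ann N ρ) (fun x => nl N (f x + g x) - nl N (f x) - dnl N (f x) * g x) := by
      have c1 : T (ann N ρ) (fun x => lam * fn ((u + h : XS e ρ) : LV N) x +
          nl N (fn ((u + h : XS e ρ) : LV N) x)) =
          T (ann N ρ) (fun x => lam * (f x + g x) + nl N (f x + g x)) := by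
        apply T_congr hm
        filter_upwards [fn_add hN (XS_DD hN u) (XS_DD hN h)] with x hx _
        have : fn ((u + h : XS e ρ) : LV N) x = f x + g x := hx
        rw [this]
      have hfg : Mq (ts N) (ann N ρ) (fun x => f x + g x) := (Mq_fn hN u _).add (Mq_fn hN h _)
      have hfgd : Mq (td N) (ann N ρ) (fun x => f x + g x) := (Mq_td_fn hN u).add (Mq_td_fn hN h)
      have q1 : Mq (td N) (ann N ρ) (fun x => lam * (f x + g x) + nl N (f x + g x)) :=
        (hfgd.const_mul lam).add (Mq_nl hN hN5 hfg)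
      have q2 : Mq (td N) (ann N ρ) (fun x => lam * f x + nl N (f x)) := Mq_g hN hN5 lam u
      have q3 : Mq (td N) (ann N ρ) (fun x => (lam + dnl N (f x)) * g x) :=
        (holder_pot hN (pot_Mq hN hN5 lam u) (Mq_fn hN h _)).1
      have c2 : (fun x => nl N (f x + g x) - nl N (f x) - dnl N (f x) * g x) = fun x =>
          ((lam * (f x + g x) + nl N (f x + g x)) - (lam * f x + nl N (f x))) -
            (lam + dnl N (f x)) * g x := by
        funext x; ring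
      have q12 : Mq (td N) (ann N ρ) (fun x => (lam * (f x + g x) + nl N (f x + g x)) -
          (lam * f x + nl N (f x))) := q1.sub q2
      rw [c2, T_sub hN hm q12 q3, T_sub hN hm q1 q2]
      rw [Submodule.coe_sub, Submodule.coe_sub, gg_apply hN hN5 hρ hρ1 he, gg_apply hN hN5 hρ hρ1 he,
        c1]
      unfold Hess
      rw [ContinuousLinearMap.sub_apply, Submodule.coe_sub,
        Kop_apply hN hρ hρ1 he (pot_Mq hN hN5 lam u) (pot_ax hN hN5 lam u)]
      have c3 : ((ContinuousLinearMap.id ℝ (XS e ρ)) h : LV N) = (h : LV N) := rfl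
      rw [c3, Submodule.coe_add]
      abel
    rw [Submodule.coe_norm, e1, norm_neg]
    refine (T_norm hN hm m1).trans ?_
    have h5 : nq (ts N) (ann N ρ) f ^ (pm N - 1) ≤ (SS N * ‖u‖) ^ (pm N - 1) :=
      Real.rpow_le_rpow nq_nonneg (nq_fn hN u _) hpm.le
    have h6 : nq (ts N) (ann N ρ) g ^ (pm N - 1) ≤ (SS N * ‖h‖) ^ (pm N - 1) :=
      Real.rpow_le_rpow nq_nonneg (nq_fn hN h _) hpm.le
    have h7 : nq (ts N) (ann N ρ) g ^ 2 ≤ (SS N * ‖h‖) ^ 2 :=
      pow_le_pow_left₀ nq_nonneg (nq_fn hN h _) 2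
    have h8 : nq (td N) (ann N ρ) (fun x => nl N (f x + g x) - nl N (f x) - dnl N (f x) * g x) ≤
        C * ((SS N * ‖u‖) ^ (pm N - 1) + (SS N * ‖h‖) ^ (pm N - 1)) * (SS N * ‖h‖) ^ 2 := by
      refine m2.trans ?_
      gcongr
    calc _ ≤ SS N * (C * ((SS N * ‖u‖) ^ (pm N - 1) + (SS N * ‖h‖) ^ (pm N - 1)) *
          (SS N * ‖h‖) ^ 2) := mul_le_mul_of_nonneg_left h8 hS.le
      _ = _ := by ring
  rw [hasFDerivAt_iff_isLittleO_nhds_zero]
  rw [Asymptotics.isLittleO_iff]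
  intro c hc
  set D : ℝ := SS N * (C * ((SS N * ‖u‖) ^ (pm N - 1) + (SS N * 1) ^ (pm N - 1)) * SS N ^ 2) with hD
  have hDpos : 0 < D := by
    have : 0 < (SS N * 1) ^ (pm N - 1) := by positivity
    have : 0 ≤ (SS N * ‖u‖) ^ (pm N - 1) := by positivity
    positivity
  filter_upwards [Metric.ball_mem_nhds (0 : XS e ρ) (lt_min one_pos (div_pos hc hDpos))] with h hh
  rw [mem_ball_zero_iff] at hh
  have h1 : ‖h‖ ≤ 1 := (hh.trans_le (min_le_left _ _)).le
  have h2 : ‖h‖ ≤ c / D := (hh.trans_le (min_le_right _ _)).le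
  refine (key1 h).trans ?_
  calc _ ≤ D * ‖h‖ ^ 2 := by
        rw [hD]; gcongr
    _ = (D * ‖h‖) * ‖h‖ := by ring
    _ ≤ c * ‖h‖ := by
      apply mul_le_mul_of_nonneg_right _ (norm_nonneg _)
      rw [le_div_iff₀ hDpos] at h2
      linarith

theorem func_J (hN : 3 ≤ N) (hN5 : N ≤ 5) {ρ : ℝ} (hρ : 0 < ρ) (hρ1 : ρ < 1) {e : E N}
    (he : ‖e‖ = 1) (lam : ℝ) (u h : XS e ρ) :
    HasDerivAt (fun t : ℝ => JJ ρ lam ((u + t • h : XS e ρ) : LV N)) ⟪gg e ρ lam u, h⟫ 0 := by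
  have hm := meas_ann (N := N) ρ
  have hpm := pm_gt_one hN hN5
  set f := fn (u : LV N) with hf
  set g := fn (h : LV N) with hg
  set μ : Measure (E N) := volume.restrict (ann N ρ) with hμ
  have hfm : Mq (ts N) (ann N ρ) f := Mq_fn hN u _
  have hgm : Mq (ts N) (ann N ρ) g := Mq_fn hN h _
  have htsp := ts_pos58 hN
  have h2ts : (2 : ℝ) ≤ ts N := by rw [ts_eq hN]; linarith
  set s := fun x => |f x| + |g x| with hs
  have hsm : Mq (ts N) (ann N ρ) s := hfm.norm.add hgm.norm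
  have hs2 : Mq 2 (ann N ρ) s := Mq_mono (ann_ball ρ) (by norm_num) h2ts hsm
  have hs2' : MemLp s 2 μ := by
    have h2 : ENNReal.ofReal 2 = 2 := by simp
    have h3 := hs2
    unfold Mq at h3
    rwa [h2] at h3
  have i1 : Integrable (fun x => s x ^ 2) μ := hs2'.integrable_sq
  have i2 : Integrable (fun x => s x ^ ts N) μ := by
    have := hsm.integrable_norm_rpow (by simp [htsp]) (by simp)
    rw [ENNReal.toReal_ofReal htsp.le] at this
    refine this.congr ?_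
    filter_upwards with x
    rw [Real.norm_eq_abs, abs_of_nonneg (by simp only [hs]; positivity)]
  have i3 : Integrable (fun x => |lam| * s x ^ 2 + s x ^ ts N) μ := (i1.const_mul _).add i2
  set F : ℝ → E N → ℝ := fun t x => lam * (f x + t * g x) ^ 2 / 2 + NL N (f x + t * g x) with hF
  set F' : ℝ → E N → ℝ := fun t x => (lam * (f x + t * g x) + nl N (f x + t * g x)) * g x with hF'
  have hfgm : ∀ t : ℝ, AEStronglyMeasurable (fun x => f x + t * g x) μ :=
    fun t => hfm.1.add (hgm.1.const_mul t)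
  have hFm : ∀ t, AEStronglyMeasurable (F t) μ := by
    intro t
    have hc : Continuous (fun y : ℝ => lam * y ^ 2 / 2 + NL N y) :=
      (by fun_prop : Continuous (fun y : ℝ => lam * y ^ 2 / 2)).add (continuous_NL hN hN5)
    exact hc.comp_aestronglyMeasurable (hfgm t)
  have hF'm : ∀ t, AEStronglyMeasurable (F' t) μ := by
    intro t
    have hc : Continuous (fun y : ℝ => lam * y + nl N y) :=
      (by fun_prop : Continuous (fun y : ℝ => lam * y)).add (continuous_nl hN hN5)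
    exact (hc.comp_aestronglyMeasurable (hfgm t)).mul hgm.1
  have hsnn : ∀ x, 0 ≤ s x := fun x => by simp only [hs]; positivity
  have hle : ∀ t ∈ ball (0 : ℝ) 1, ∀ x, |f x + t * g x| ≤ s x := by
    intro t ht x
    rw [mem_ball_zero_iff, Real.norm_eq_abs] at ht
    refine (abs_add_le _ _).trans ?_
    rw [abs_mul]
    simp only [hs]
    have : |t| * |g x| ≤ 1 * |g x| := mul_le_mul_of_nonneg_right ht.le (abs_nonneg _)
    linarith
  have hF0 : Integrable (F 0) μ := by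
    refine Integrable.mono' i3 (hFm 0) ?_
    filter_upwards with x
    have h1 := hle 0 (by simp) x
    rw [Real.norm_eq_abs]
    have h2 : |lam * (f x + 0 * g x) ^ 2 / 2| ≤ |lam| * s x ^ 2 := by
      rw [abs_div, abs_mul, abs_pow, abs_two]
      have : |f x + 0 * g x| ^ 2 ≤ s x ^ 2 := pow_le_pow_left₀ (abs_nonneg _) h1 2
      have h3 : |lam| * |f x + 0 * g x| ^ 2 ≤ |lam| * s x ^ 2 := by gcongr
      have h4 : 0 ≤ |lam| * |f x + 0 * g x| ^ 2 := by positivity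
      linarith
    have h3 : |NL N (f x + 0 * g x)| ≤ s x ^ ts N := by
      unfold NL
      rw [← ts_eq hN, abs_div, abs_of_nonneg (Real.rpow_nonneg (abs_nonneg _) _),
        abs_of_pos htsp]
      have : |f x + 0 * g x| ^ ts N ≤ s x ^ ts N := Real.rpow_le_rpow (abs_nonneg _) h1 htsp.le
      have h4 : 0 ≤ |f x + 0 * g x| ^ ts N := by positivity
      rw [div_le_iff₀ htsp]
      nlinarith
    exact (abs_add_le _ _).trans (add_le_add h2 h3)
  have hb : ∀ᵐ x ∂μ, ∀ t ∈ ball (0 : ℝ) 1, ‖F' t x‖ ≤ |lam| * s x ^ 2 + s x ^ ts N := by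
    filter_upwards with x t ht
    have h1 := hle t ht x
    have h2 : |g x| ≤ s x := by simp only [hs]; linarith [abs_nonneg (f x)]
    rw [Real.norm_eq_abs]
    simp only [hF']
    rw [abs_mul]
    have h3 : |lam * (f x + t * g x) + nl N (f x + t * g x)| ≤ |lam| * s x + s x ^ (pm N + 1) := by
      refine (abs_add_le _ _).trans ?_
      rw [abs_mul, abs_nl hN hN5]
      apply add_le_add
      · gcongr
      · exact Real.rpow_le_rpow (abs_nonneg _) h1 (by linarith)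
    have h4 : s x ^ ts N = s x ^ (pm N + 1) * s x := by
      rw [← Real.rpow_add_one' (hsnn x) (by linarith), ts_eq hN]
      congr 1
      ring
    rw [h4]
    calc _ ≤ (|lam| * s x + s x ^ (pm N + 1)) * s x := by
          apply mul_le_mul h3 h2 (abs_nonneg _)
          have := hsnn x
          positivity
      _ = _ := by ring
  have hd : ∀ᵐ x ∂μ, ∀ t ∈ ball (0 : ℝ) 1, HasDerivAt (fun t => F t x) (F' t x) t := by
    filter_upwards with x t _
    have e1 : HasDerivAt (fun t : ℝ => f x + t * g x) (g x) t := by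
      simpa using ((hasDerivAt_id t).mul_const (g x)).const_add (f x)
    have e2 := (hasDerivAt_NL hN hN5 (f x + t * g x)).comp t e1
    have e3 := ((e1.pow 2).const_mul lam).div_const 2
    have e4 := e3.add e2
    refine e4.congr_deriv ?_
    simp only [hF']
    ring
  obtain ⟨i4, hI⟩ := hasDerivAt_integral_of_dominated_loc_of_deriv_le
    (Metric.ball_mem_nhds (0 : ℝ) one_pos) (Eventually.of_forall hFm) hF0 (hF'm 0) hb i3 hd
  have hJ : (fun t : ℝ => JJ ρ lam ((u + t • h : XS e ρ) : LV N)) = fun t =>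
      (‖u‖ ^ 2 + 2 * t * ⟪u, h⟫ + t ^ 2 * ‖h‖ ^ 2) / 2 - ∫ x, F t x ∂μ := by
    funext t
    unfold JJ
    congr 1
    · congr 1
      have h9 : ‖((u + t • h : XS e ρ) : LV N)‖ ^ 2 = ‖(u : LV N) + t • (h : LV N)‖ ^ 2 := rfl
      rw [h9, norm_add_sq_real, norm_smul, real_inner_smul_right, mul_pow, Real.norm_eq_abs,
        sq_abs, Submodule.coe_norm, Submodule.coe_norm, Submodule.coe_inner]
      ring
    · apply integral_congr_ae
      have h1 := fn_add hN (XS_DD hN u) (XS_DD hN (t • h))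
      have h2 := fn_smul hN t (XS_DD hN h)
      filter_upwards [ae_restrict_of_ae h1, ae_restrict_of_ae h2] with x hx1 hx2
      have h3 : fn ((u + t • h : XS e ρ) : LV N) x = f x + t * g x := by
        have : fn ((u + t • h : XS e ρ) : LV N) x = fn (u : LV N) x + fn ((t • h : XS e ρ) : LV N) x := hx1
        rw [this]
        have : fn ((t • h : XS e ρ) : LV N) x = t * g x := hx2
        rw [this]
      simp only [hF]
      rw [h3]
  rw [hJ]
  have e1 : HasDerivAt (fun t : ℝ => (‖u‖ ^ 2 + 2 * t * ⟪u, h⟫ + t ^ 2 * ‖h‖ ^ 2) / 2) ⟪u, h⟫ 0 := by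
    have k1 : HasDerivAt (fun t : ℝ => 2 * t * ⟪u, h⟫) (2 * ⟪u, h⟫) 0 := by
      simpa using ((hasDerivAt_id (0 : ℝ)).const_mul 2).mul_const ⟪u, h⟫
    have k2 : HasDerivAt (fun t : ℝ => t ^ 2 * ‖h‖ ^ 2) 0 0 := by
      have := ((hasDerivAt_id (0 : ℝ)).pow 2).mul_const (‖h‖ ^ 2)
      simpa using this
    have k3 := (((k1.const_add (‖u‖ ^ 2)).add k2).div_const 2)
    refine k3.congr_deriv ?_
    ring
  have e2 := e1.sub hI
  refine e2.congr_deriv ?_
  have hw := weak_pair hN hm (Mq_g hN hN5 lam u) (T_weak hN hm (Mq_g hN hN5 lam u))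
    ((mem_XS hN).1 h.2).1
  rw [Submodule.coe_inner _ (gg e ρ lam u) h, gg_apply hN hN5 hρ hρ1 he, inner_sub_left, hw.2,
    ← Submodule.coe_inner]
  congr 1
  apply integral_congr_ae
  filter_upwards with x
  simp only [hF', hf, hg]
  ring_nf

end Pool.Agent.helper13.BN
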